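import Mathlib
import Pool.Agent.T9h47.MN.Red

/-!
# Disjunctions of many instances inside the language

A word which consists of many instances of the tree problem, and which is in the language if and
only if one of the instances is positive. The stack has a marker at the bottom which says whether
an instance has been chosen, and all blocks have options which only work if the marker is on the
top.
-/

set_option autoImplicit false

namespace Pool.Agent.T9h97.CFL

open Finset Pool.Agent.T9h47.MN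
open Ltr St

variable {h m : ℕ}

/-- letters of the template -/
abbrev TT (h m : ℕ) := Ltr ⊕ (ℕ × Var h (Lb m))

open Classical in
/-- evaluation of a letter of the template -/
noncomputable def evv (x : Set (ℕ × Var h (Lb m))) : TT h m → Ltr
  | Sum.inl c => c
  | Sum.inr q => if q ∈ x then yes else no

/-- the body of an option: pop `p`, push `q` -/
def bd (p q : List Bool) : List Ltr := p.map cls ++ q.reverse.map opn

theorem isBr_bd (p q : List Bool) : ∀ c ∈ bd p q, IsBr c := by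
  intro c hc
  unfold bd at hc
  rw [List.mem_append] at hc
  rcases hc with hc | hc
  · exact isBr_cls _ _ hc
  · exact isBr_opn _ _ hc

theorem run_bd (p q σ τ : List Bool) :
    Rn I σ (bd p q) I τ ↔ ∃ ρ, σ = p ++ ρ ∧ τ = q ++ ρ := by
  have := run_body q [] p σ τ
  simpa [bd] using this

/-- a block, given by the list of its options -/
def blk (opts : List (TT h m × List Bool × List Bool)) : List (TT h m) :=
  opts.flatMap (fun o => o.1 :: (bd o.2.1 o.2.2).map Sum.inl) ++ [Sum.inl sep]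

/-- the options are well formed -/
def WO (opts : List (TT h m × List Bool × List Bool)) : Prop :=
  ∀ o ∈ opts, o.1 = Sum.inl yes ∨ ∃ q, o.1 = Sum.inr q

theorem run_blk {opts : List (TT h m × List Bool × List Bool)} (hW : WO opts)
    (x : Set (ℕ × Var h (Lb m))) (σ : List Bool) (q : St) (τ : List Bool) :
    Rn B σ ((blk opts).map (evv x)) q τ ↔
      q = B ∧ ∃ o ∈ opts, evv x o.1 = yes ∧ ∃ ρ, σ = o.2.1 ++ ρ ∧ τ = o.2.2 ++ ρ := by
  have h1 : (blk opts).map (evv x) =
      flat (opts.map (fun o => (evv x o.1, bd o.2.1 o.2.2))) ++ [sep] := by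
    simp only [blk, flat, List.map_append, List.map_flatMap, List.map_cons, List.map_map,
      List.flatMap_map, List.map_nil, Function.comp_def, evv, List.map_id']
  rw [h1, block]
  · simp only [List.mem_map]
    constructor
    · rintro ⟨rfl, o, ⟨o', ho', rfl⟩, h2, h3⟩
      exact ⟨rfl, o', ho', h2, (run_bd _ _ _ _).1 h3⟩
    · rintro ⟨rfl, o', ho', h2, h3⟩
      exact ⟨rfl, _, ⟨o', ho', rfl⟩, h2, (run_bd _ _ _ _).2 h3⟩
  · intro o ho
    rw [List.mem_map] at ho
    obtain ⟨o', ho', rfl⟩ := ho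
    refine ⟨?_, isBr_bd _ _⟩
    rcases hW o' ho' with h2 | ⟨q, h2⟩
    · left
      simp only [h2, evv]
    · simp only [h2, evv]
      split_ifs
      · exact Or.inl rfl
      · exact Or.inr rfl

/-- the markers -/
def mk (j : Bool) : List Bool := [false, j]

/-- the codes of the labels -/
def lb (c : Lb m) : List Bool := true :: code c

theorem lb_length (c : Lb m) : (lb c).length = m + 1 := by simp [lb, code_length]

theorem lb_inj {a b : Lb m} {σ τ : List Bool} (hab : lb a ++ σ = lb b ++ τ) : a = b ∧ σ = τ := by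
  simp only [lb, List.cons_append, List.cons.injEq, true_and] at hab
  exact code_inj hab

theorem mk_ne_lb {j : Bool} {b : Lb m} {σ τ : List Bool} (h : mk j ++ σ = lb b ++ τ) : False := by
  simp [mk, lb] at h

theorem mk_inj {i j : Bool} {σ τ : List Bool} (h : mk i ++ σ = mk j ++ τ) : i = j ∧ σ = τ := by
  simpa [mk] using h

/-- the options which only work if a marker is on the top -/
def skips (h m : ℕ) : List (TT h m × List Bool × List Bool) :=
  [(Sum.inl yes, mk false, mk false), (Sum.inl yes, mk true, mk true)]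

/-- options of a leaf -/
noncomputable def leafO (h m : ℕ) : List (TT h m × List Bool × List Bool) :=
  skips h m ++ (univ : Finset (Lb m)).toList.map (fun c => (Sum.inl yes, lb c, []))

/-- options of an inner node -/
noncomputable def nodeO (β : ℕ) (v : Nd h) : List (TT h m × List Bool × List Bool) :=
  skips h m ++ (univ : Finset (Lb m × Lb m × Lb m)).toList.map
    (fun y => (Sum.inr (β, v, y), lb y.2.2, lb y.1 ++ lb y.2.1))

/-- options of the choice of an instance -/
noncomputable def decO (h m : ℕ) : List (TT h m × List Bool × List Bool) :=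
  skips h m ++ (univ : Finset (Lb m)).toList.map (fun c => (Sum.inl yes, mk false, lb c ++ mk true))

theorem skips_W : WO (skips h m) := by
  intro o ho
  simp only [skips, List.mem_cons, List.not_mem_nil, or_false] at ho
  rcases ho with rfl | rfl <;> exact Or.inl rfl

theorem leafO_W : WO (leafO h m) := by
  intro o ho
  rw [leafO, List.mem_append] at ho
  rcases ho with ho | ho
  · exact skips_W o ho
  · rw [List.mem_map] at ho
    obtain ⟨c, _, rfl⟩ := ho
    exact Or.inl rfl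

theorem nodeO_W (β : ℕ) (v : Nd h) : WO (nodeO (m := m) β v) := by
  intro o ho
  rw [nodeO, List.mem_append] at ho
  rcases ho with ho | ho
  · exact skips_W o ho
  · rw [List.mem_map] at ho
    obtain ⟨c, _, rfl⟩ := ho
    exact Or.inr ⟨_, rfl⟩

theorem decO_W : WO (decO h m) := by
  intro o ho
  rw [decO, List.mem_append] at ho
  rcases ho with ho | ho
  · exact skips_W o ho
  · rw [List.mem_map] at ho
    obtain ⟨c, _, rfl⟩ := ho
    exact Or.inl rfl

/-- the skipping transitions -/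
def Sk (σ τ : List Bool) : Prop := ∃ (j : Bool) (ρ : List Bool), σ = mk j ++ ρ ∧ τ = σ

theorem skips_iff (x : Set (ℕ × Var h (Lb m))) (σ τ : List Bool) :
    (∃ o ∈ skips h m, evv x o.1 = yes ∧ ∃ ρ, σ = o.2.1 ++ ρ ∧ τ = o.2.2 ++ ρ) ↔ Sk σ τ := by
  simp only [skips, List.mem_cons, List.not_mem_nil, or_false]
  constructor
  · rintro ⟨o, rfl | rfl, -, ρ, rfl, rfl⟩
    · exact ⟨false, ρ, rfl, rfl⟩
    · exact ⟨true, ρ, rfl, rfl⟩
  · rintro ⟨j, ρ, rfl, rfl⟩
    cases j with
    | false => exact ⟨_, Or.inl rfl, rfl, ρ, rfl, rfl⟩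
    | true => exact ⟨_, Or.inr rfl, rfl, ρ, rfl, rfl⟩

theorem ex_append {α : Type} (l l' : List α) (p : α → Prop) :
    (∃ o ∈ l ++ l', p o) ↔ (∃ o ∈ l, p o) ∨ ∃ o ∈ l', p o := by
  simp only [List.mem_append, or_and_right, exists_or]

theorem run_leaf' (x : Set (ℕ × Var h (Lb m))) (σ : List Bool) (q : St) (τ : List Bool) :
    Rn B σ ((blk (leafO h m)).map (evv x)) q τ ↔
      q = B ∧ (Sk σ τ ∨ ∃ c : Lb m, σ = lb c ++ τ) := by
  rw [run_blk leafO_W, leafO, ex_append, skips_iff]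
  apply and_congr_right
  intro _
  apply or_congr Iff.rfl
  simp only [List.mem_map, mem_toList, mem_univ, true_and]
  constructor
  · rintro ⟨o, ⟨c, rfl⟩, -, ρ, h1, h2⟩
    simp only [List.nil_append] at h2
    exact ⟨c, by rw [h2]; exact h1⟩
  · rintro ⟨c, h1⟩
    exact ⟨_, ⟨c, rfl⟩, rfl, τ, h1, rfl⟩

theorem run_dec' (x : Set (ℕ × Var h (Lb m))) (σ : List Bool) (q : St) (τ : List Bool) :
    Rn B σ ((blk (decO h m)).map (evv x)) q τ ↔
      q = B ∧ (Sk σ τ ∨ ∃ (c : Lb m) (ρ : List Bool), σ = mk false ++ ρ ∧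
        τ = lb c ++ (mk true ++ ρ)) := by
  rw [run_blk decO_W, decO, ex_append, skips_iff]
  apply and_congr_right
  intro _
  apply or_congr Iff.rfl
  simp only [List.mem_map, mem_toList, mem_univ, true_and]
  constructor
  · rintro ⟨o, ⟨c, rfl⟩, -, ρ, h1, h2⟩
    simp only [List.append_assoc] at h2
    exact ⟨c, ρ, h1, h2⟩
  · rintro ⟨c, ρ, h1, h2⟩
    exact ⟨_, ⟨c, rfl⟩, rfl, ρ, h1, by simp only [List.append_assoc]; exact h2⟩

theorem run_node' (β : ℕ) (v : Nd h) (x : Set (ℕ × Var h (Lb m))) (σ : List Bool) (q : St)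
    (τ : List Bool) :
    Rn B σ ((blk (nodeO β v)).map (evv x)) q τ ↔ q = B ∧ (Sk σ τ ∨ ∃ a b c : Lb m, ∃ ρ,
      (β, v, a, b, c) ∈ x ∧ σ = lb c ++ ρ ∧ τ = lb a ++ (lb b ++ ρ)) := by
  classical
  rw [run_blk (nodeO_W β v), nodeO, ex_append, skips_iff]
  apply and_congr_right
  intro _
  apply or_congr Iff.rfl
  simp only [List.mem_map, mem_toList, mem_univ, true_and]
  constructor
  · rintro ⟨o, ⟨⟨a, b, c⟩, rfl⟩, h1, ρ, h2, h3⟩
    simp only [evv, List.append_assoc] at h1 h3
    split_ifs at h1 with h4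
    exact ⟨a, b, c, ρ, h4, h2, h3⟩
  · rintro ⟨a, b, c, ρ, h1, h2, h3⟩
    refine ⟨_, ⟨(a, b, c), rfl⟩, ?_, ρ, h2, ?_⟩
    · simp [evv, h1]
    · simp only [List.append_assoc]
      exact h3

/-- template of a subtree of the instance `β` -/
noncomputable def tre (β : ℕ) : ℕ → Nd h → List (TT h m)
  | 0, _ => blk (leafO h m)
  | i + 1, v => blk (nodeO β v) ++ (tre β i (lc v) ++ tre β i (rc v))

theorem tre_skip (β : ℕ) (x : Set (ℕ × Var h (Lb m))) (j : Bool) (ρ : List Bool) :
    ∀ (i : ℕ) (v : Nd h), Rn B (mk j ++ ρ) ((tre β i v).map (evv x)) B (mk j ++ ρ) := by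
  intro i
  induction i with
  | zero =>
    intro v
    exact (run_leaf' _ _ _ _).2 ⟨rfl, Or.inl ⟨j, ρ, rfl, rfl⟩⟩
  | succ i ih =>
    intro v
    rw [tre, List.map_append, List.map_append, Rn_append]
    refine ⟨B, mk j ++ ρ, (run_node' _ _ _ _ _ _).2 ⟨rfl, Or.inl ⟨j, ρ, rfl, rfl⟩⟩, ?_⟩
    rw [Rn_append]
    exact ⟨B, mk j ++ ρ, ih _, ih _⟩

/-- positive tests are accepted -/
theorem tre_pos (β : ℕ) (x : Set (ℕ × Var h (Lb m))) (l : Nd h → Lb m)
    (hx : ∀ q ∈ posT l, (β, q) ∈ x) : ∀ (i : ℕ) (v : Nd h) (τ : List Bool), 1 ≤ v.val →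
    v.val * 2 ^ i < 2 ^ (h + 1) →
    Rn B (lb (l v) ++ τ) ((tre β i v).map (evv x)) B τ := by
  intro i
  induction i with
  | zero =>
    intro v τ _ _
    exact (run_leaf' _ _ _ _).2 ⟨rfl, Or.inr ⟨l v, rfl⟩⟩
  | succ i ih =>
    intro v τ hv1 hv
    have hvi : v ∈ inner h := mem_inner.2 ⟨hv1, aux1 _ _ _ hv1 hv⟩
    have hl := lc_val hvi
    have hr := rc_val hvi
    obtain ⟨hv', hv''⟩ := aux2 _ _ _ hv1 hv
    rw [tre, List.map_append, List.map_append, Rn_append]
    refine ⟨B, lb (l (lc v)) ++ (lb (l (rc v)) ++ τ), ?_, ?_⟩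
    · exact (run_node' _ _ _ _ _ _).2 ⟨rfl, Or.inr ⟨l (lc v), l (rc v), l v, τ,
        hx _ ⟨hvi, rfl⟩, rfl, rfl⟩⟩
    · rw [Rn_append]
      refine ⟨B, lb (l (rc v)) ++ τ, ?_, ?_⟩
      · exact ih (lc v) _ (by rw [hl]; omega) (by rw [hl]; exact hv')
      · exact ih (rc v) _ (by rw [hr]; omega) (by rw [hr]; exact hv'')

/-- in negative tests only false labels can be popped -/
theorem tre_neg (hh : 1 ≤ h) (β : ℕ) (x : Set (ℕ × Var h (Lb m))) (χ : Nd h × Lb m → Bool)
    (hx : ∀ q, (β, q) ∈ x → q ∈ negT χ) :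
    ∀ (i : ℕ) (v : Nd h) (σ τ : List Bool) (q : St),
    1 ≤ v.val → 2 ^ h ≤ v.val * 2 ^ i → v.val * 2 ^ i < 2 ^ (h + 1) →
    Rn B σ ((tre β i v).map (evv x)) q τ →
    q = B ∧ (Sk σ τ ∨ ∃ c : Lb m, σ = lb c ++ τ ∧ eff χ v c = false) := by
  intro i
  induction i with
  | zero =>
    intro v σ τ q _ hv _ h1
    obtain ⟨h2, h3⟩ := (run_leaf' _ _ _ _).1 h1
    refine ⟨h2, ?_⟩
    rcases h3 with h3 | ⟨c, h3⟩
    · exact Or.inl h3
    · refine Or.inr ⟨c, h3, ?_⟩
      unfold eff
      have hne : v ≠ root h := by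
        intro h4
        have h5 : v.val = 1 := by rw [h4]; rfl
        have h6 : 2 ^ 1 ≤ 2 ^ h := Nat.pow_le_pow_right (by norm_num) hh
        omega
      rw [if_neg hne, if_pos (by simpa using hv)]
  | succ i ih =>
    intro v σ τ q hv1 hv2 hv h1
    have hvi : v ∈ inner h := mem_inner.2 ⟨hv1, aux1 _ _ _ hv1 hv⟩
    have hl := lc_val hvi
    have hr := rc_val hvi
    obtain ⟨hv', hv''⟩ := aux2 _ _ _ hv1 hv
    have hv2' := aux3 _ _ _ hv2
    rw [tre, List.map_append, List.map_append, Rn_append] at h1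
    obtain ⟨r, ρ, h2, h3⟩ := h1
    obtain ⟨rfl, h4⟩ := (run_node' _ _ _ _ _ _).1 h2
    rw [Rn_append] at h3
    obtain ⟨r', ρ'', h7, h8⟩ := h3
    obtain ⟨rfl, h9⟩ := ih (lc v) _ _ _ (by rw [hl]; omega) (by rw [hl]; exact hv2')
      (by rw [hl]; exact hv') h7
    obtain ⟨h12, h13⟩ := ih (rc v) _ _ _ (by rw [hr]; omega) (by
      rw [hr]; refine hv2'.trans ?_
      exact Nat.mul_le_mul_right _ (Nat.le_succ _)) (by rw [hr]; exact hv'') h8
    refine ⟨h12, ?_⟩
    rcases h4 with ⟨j, ρ', rfl, rfl⟩ | ⟨a, b, c, ρ', h4, h5, h6⟩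
    · -- the block is skipped
      have h10 : ρ'' = mk j ++ ρ' := by
        rcases h9 with ⟨_, _, _, h9⟩ | ⟨c, h9, _⟩
        · exact h9
        · exact absurd h9 (fun h => mk_ne_lb h)
      subst h10
      rcases h13 with ⟨_, _, _, h13⟩ | ⟨c, h13, _⟩
      · exact Or.inl ⟨j, ρ', rfl, h13⟩
      · exact absurd h13 (fun h => mk_ne_lb h)
    · right
      rw [h6] at h9
      obtain ⟨h10, h11⟩ : eff χ (lc v) a = false ∧ ρ'' = lb b ++ ρ' := by
        rcases h9 with ⟨j, ρ₁, h9, _⟩ | ⟨a', h9, h10⟩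
        · exact absurd h9.symm (fun h => mk_ne_lb h)
        · obtain ⟨rfl, h11⟩ := lb_inj h9
          exact ⟨h10, h11.symm⟩
      rw [h11] at h13
      obtain ⟨h14, h15⟩ : eff χ (rc v) b = false ∧ τ = ρ' := by
        rcases h13 with ⟨j, ρ₁, h13, _⟩ | ⟨b', h13, h14⟩
        · exact absurd h13.symm (fun h => mk_ne_lb h)
        · obtain ⟨rfl, h15⟩ := lb_inj h13
          exact ⟨h14, h15.symm⟩
      refine ⟨c, by rw [h5, h15], ?_⟩
      obtain ⟨_, h16⟩ := hx _ h4
      by_contra hcon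
      rw [Bool.not_eq_false] at hcon
      rcases h16 hcon with h17 | h17
      · simp only at h17
        rw [h10] at h17; exact absurd h17 (by decide)
      · simp only at h17
        rw [h14] at h17; exact absurd h17 (by decide)

/-- one instance with the choice in front of it -/
noncomputable def one (h m β : ℕ) : List (TT h m) := blk (decO h m) ++ tre β h (root h)

/-- the instances `0, ..., M - 1` -/
noncomputable def many (h m : ℕ) : ℕ → List (TT h m)
  | 0 => []
  | M + 1 => many h m M ++ one h m M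

theorem root_lt (h : ℕ) : (root h).val * 2 ^ h < 2 ^ (h + 1) := by
  have h6 : (root h).val = 1 := rfl
  rw [h6]
  have := two_pow_succ' h
  have : 0 < 2 ^ h := by positivity
  omega

theorem one_skip (β : ℕ) (x : Set (ℕ × Var h (Lb m))) (j : Bool) :
    Rn B (mk j) ((one h m β).map (evv x)) B (mk j) := by
  rw [one, List.map_append, Rn_append]
  refine ⟨B, mk j, (run_dec' _ _ _ _).2 ⟨rfl, Or.inl ⟨j, [], by simp, rfl⟩⟩, ?_⟩
  have := tre_skip (m := m) β x j [] h (root h)
  simpa using this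

theorem many_skip (x : Set (ℕ × Var h (Lb m))) (j : Bool) (M : ℕ) :
    Rn B (mk j) ((many h m M).map (evv x)) B (mk j) := by
  induction M with
  | zero => exact ⟨rfl, rfl⟩
  | succ M ih =>
    rw [many, List.map_append, Rn_append]
    exact ⟨B, mk j, ih, one_skip _ _ _⟩

theorem one_pos (β : ℕ) (x : Set (ℕ × Var h (Lb m))) (l : Nd h → Lb m)
    (hx : ∀ q ∈ posT l, (β, q) ∈ x) :
    Rn B (mk false) ((one h m β).map (evv x)) B (mk true) := by
  rw [one, List.map_append, Rn_append]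
  refine ⟨B, lb (l (root h)) ++ mk true, (run_dec' _ _ _ _).2 ⟨rfl, Or.inr
    ⟨l (root h), [], by simp, by simp⟩⟩, ?_⟩
  exact tre_pos β x l hx h (root h) (mk true) le_rfl (root_lt h)

theorem many_pos (x : Set (ℕ × Var h (Lb m))) (M : ℕ)
    (hx : ∃ β < M, ∃ l : Nd h → Lb m, ∀ q ∈ posT l, (β, q) ∈ x) :
    Rn B (mk false) ((many h m M).map (evv x)) B (mk true) := by
  induction M with
  | zero => obtain ⟨β, hβ, _⟩ := hx; omega
  | succ M ih =>
    rw [many, List.map_append, Rn_append]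
    obtain ⟨β, hβ, l, hl⟩ := hx
    rcases Nat.lt_succ_iff_lt_or_eq.1 hβ with h1 | h1
    · exact ⟨B, mk true, ih ⟨β, h1, l, hl⟩, one_skip _ _ _⟩
    · subst h1
      exact ⟨B, mk false, many_skip _ _ _, one_pos _ _ l hl⟩

theorem one_neg (hh : 1 ≤ h) (β : ℕ) (x : Set (ℕ × Var h (Lb m)))
    (hx : ∃ χ : Nd h × Lb m → Bool, ∀ q, (β, q) ∈ x → q ∈ negT χ) (q : St) (τ : List Bool)
    (hr : Rn B (mk false) ((one h m β).map (evv x)) q τ) : q = B ∧ τ = mk false := by
  obtain ⟨χ, hχ⟩ := hx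
  rw [one, List.map_append, Rn_append] at hr
  obtain ⟨r, ρ, h1, h2⟩ := hr
  obtain ⟨rfl, h3⟩ := (run_dec' _ _ _ _).1 h1
  have h6 : (root h).val = 1 := rfl
  obtain ⟨rfl, h4⟩ := tre_neg hh β x χ hχ h (root h) _ _ _ (by rw [h6]) (by rw [h6]; omega)
    (root_lt h) h2
  refine ⟨rfl, ?_⟩
  rcases h3 with ⟨j, ρ', h3, h5⟩ | ⟨c, ρ', h3, h5⟩
  · rw [h5] at h4
    rcases h4 with ⟨_, _, _, h4⟩ | ⟨c, h4, _⟩
    · exact h4
    · exact absurd (show mk false ++ [] = lb c ++ τ by rw [List.append_nil]; exact h4)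
        (fun h => mk_ne_lb h)
  · rw [h5] at h4
    rcases h4 with ⟨_, _, h4, _⟩ | ⟨c', h4, h7⟩
    · exact absurd h4.symm (fun h => mk_ne_lb h)
    · have h9 : eff χ (root h) c' = true := by unfold eff; rw [if_pos rfl]
      rw [h7] at h9
      exact absurd h9 (by decide)

theorem many_neg (hh : 1 ≤ h) (x : Set (ℕ × Var h (Lb m))) (M : ℕ)
    (hx : ∀ β < M, ∃ χ : Nd h × Lb m → Bool, ∀ q, (β, q) ∈ x → q ∈ negT χ) :
    ∀ (q : St) (τ : List Bool), Rn B (mk false) ((many h m M).map (evv x)) q τ →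
      q = B ∧ τ = mk false := by
  induction M with
  | zero =>
    rintro q τ ⟨rfl, rfl⟩
    exact ⟨rfl, rfl⟩
  | succ M ih =>
    intro q τ hr
    rw [many, List.map_append, Rn_append] at hr
    obtain ⟨r, ρ, h1, h2⟩ := hr
    obtain ⟨rfl, rfl⟩ := ih (fun β hβ => hx β (by omega)) _ _ h1
    exact one_neg hh M x (hx M (by omega)) q τ h2

/-- the options of the first and of the last block -/
def iniO (h m : ℕ) : List (TT h m × List Bool × List Bool) := [(Sum.inl yes, [], mk false)]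

/-- the options of the last block -/
def finO (h m : ℕ) : List (TT h m × List Bool × List Bool) := [(Sum.inl yes, mk true, [])]

/-- the whole template, with padding -/
noncomputable def tmpl (h m M i : ℕ) : List (TT h m) :=
  blk (iniO h m) ++ (many h m M ++ (blk (finO h m) ++
    (Sum.inl yes :: (List.replicate i (Sum.inl no) ++ [Sum.inl sep]))))

theorem pad_map' (x : Set (ℕ × Var h (Lb m))) (i : ℕ) :
    (Sum.inl yes :: (List.replicate i (Sum.inl no) ++ [Sum.inl sep]) : List (TT h m)).map (evv x) =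
      yes :: (List.replicate i no ++ [sep]) := by
  simp [evv]

theorem run_ini (x : Set (ℕ × Var h (Lb m))) (σ : List Bool) (q : St) (τ : List Bool) :
    Rn B σ ((blk (iniO h m)).map (evv x)) q τ ↔ q = B ∧ τ = mk false ++ σ := by
  rw [run_blk (by
    intro o ho
    simp only [iniO, List.mem_singleton] at ho
    subst ho
    exact Or.inl rfl)]
  apply and_congr_right
  intro _
  simp only [iniO, List.mem_singleton]
  constructor
  · rintro ⟨o, rfl, -, ρ, h1, h2⟩
    simp only [List.nil_append] at h1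
    rw [h1]
    exact h2
  · intro h1
    exact ⟨_, rfl, rfl, σ, rfl, h1⟩

theorem run_fin (x : Set (ℕ × Var h (Lb m))) (σ : List Bool) (q : St) (τ : List Bool) :
    Rn B σ ((blk (finO h m)).map (evv x)) q τ ↔ q = B ∧ σ = mk true ++ τ := by
  rw [run_blk (by
    intro o ho
    simp only [finO, List.mem_singleton] at ho
    subst ho
    exact Or.inl rfl)]
  apply and_congr_right
  intro _
  simp only [finO, List.mem_singleton]
  constructor
  · rintro ⟨o, rfl, -, ρ, h1, h2⟩
    simp only [List.nil_append] at h2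
    rw [h2]
    exact h1
  · intro h1
    exact ⟨_, rfl, rfl, τ, h1, rfl⟩

theorem tmpl_pos (x : Set (ℕ × Var h (Lb m))) (M i : ℕ)
    (hx : ∃ β < M, ∃ l : Nd h → Lb m, ∀ q ∈ posT l, (β, q) ∈ x) :
    (tmpl h m M i).map (evv x) ∈ Lg := by
  show Rn B [] _ B []
  unfold tmpl
  rw [List.map_append, List.map_append, List.map_append, Rn_append]
  refine ⟨B, mk false, (run_ini _ _ _ _).2 ⟨rfl, by simp⟩, ?_⟩
  rw [Rn_append]
  refine ⟨B, mk true, many_pos x M hx, ?_⟩
  rw [Rn_append]
  refine ⟨B, [], (run_fin _ _ _ _).2 ⟨rfl, by simp⟩, ?_⟩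
  rw [pad_map']
  exact run_pad i []

theorem tmpl_neg (hh : 1 ≤ h) (x : Set (ℕ × Var h (Lb m))) (M i : ℕ)
    (hx : ∀ β < M, ∃ χ : Nd h × Lb m → Bool, ∀ q, (β, q) ∈ x → q ∈ negT χ) :
    (tmpl h m M i).map (evv x) ∉ Lg := by
  intro h0
  have h1 : Rn B [] ((tmpl h m M i).map (evv x)) B [] := h0
  unfold tmpl at h1
  rw [List.map_append, List.map_append, List.map_append, Rn_append] at h1
  obtain ⟨r, ρ, h2, h3⟩ := h1
  obtain ⟨rfl, h4⟩ := (run_ini _ _ _ _).1 h2
  rw [List.append_nil] at h4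
  subst h4
  rw [Rn_append] at h3
  obtain ⟨r', ρ', h5, h6⟩ := h3
  obtain ⟨rfl, rfl⟩ := many_neg hh x M hx _ _ h5
  rw [Rn_append] at h6
  obtain ⟨r'', ρ'', h7, h8⟩ := h6
  obtain ⟨rfl, h9⟩ := (run_fin _ _ _ _).1 h7
  have := mk_inj (show mk false ++ [] = mk true ++ ρ'' by rw [List.append_nil]; exact h9)
  exact absurd this.1 (by decide)

end Pool.Agent.T9h97.CFL
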