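import Mathlib
import Pool.Agent.T9h97.CFL.Sum
import Pool.Agent.T9h47.MN.Asym

/-!
# Lengths and the choice of the parameters
-/

set_option autoImplicit false

namespace Pool.Agent.T9h97.CFL

open Finset Pool.Agent.T9h47.MN
open Ltr St

variable {h m : ℕ}

theorem bd_length (p q : List Bool) : (bd p q).length = p.length + q.length := by simp [bd]

theorem blk_length (opts : List (TT h m × List Bool × List Bool)) :
    (blk opts).length = (opts.map (fun o => 1 + (o.2.1.length + o.2.2.length))).sum + 1 := by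
  unfold blk
  rw [List.length_append, List.length_flatMap]
  congr 2
  apply List.map_congr_left
  intro o _
  simp [bd_length]
  ring

theorem mk_length (j : Bool) : (mk j).length = 2 := rfl

theorem skips_sum : ((skips h m).map (fun o => 1 + (o.2.1.length + o.2.2.length))).sum = 10 := by
  simp [skips, mk_length]

theorem leaf_length : (blk (leafO h m)).length = 2 ^ m * (m + 2) + 11 := by
  rw [blk_length, leafO, List.map_append, List.sum_append, skips_sum, List.map_map]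
  have : ((univ : Finset (Lb m)).toList.map ((fun o : TT h m × List Bool × List Bool =>
      1 + (o.2.1.length + o.2.2.length)) ∘ fun c => (Sum.inl yes, lb c, []))) =
      (univ : Finset (Lb m)).toList.map (fun _ => m + 2) := by
    refine List.map_congr_left fun c _ => ?_
    simp [lb_length]
    ring
  rw [this, List.map_const', List.sum_replicate, length_toList, card_univ]
  simp
  ring

theorem dec_length : (blk (decO h m)).length = 2 ^ m * (m + 6) + 11 := by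
  rw [blk_length, decO, List.map_append, List.sum_append, skips_sum, List.map_map]
  have : ((univ : Finset (Lb m)).toList.map ((fun o : TT h m × List Bool × List Bool =>
      1 + (o.2.1.length + o.2.2.length)) ∘ fun c => (Sum.inl yes, mk false, lb c ++ mk true))) =
      (univ : Finset (Lb m)).toList.map (fun _ => m + 6) := by
    refine List.map_congr_left fun c _ => ?_
    simp [lb_length, mk_length]
    ring
  rw [this, List.map_const', List.sum_replicate, length_toList, card_univ]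
  simp
  ring

theorem node_length (β : ℕ) (v : Nd h) :
    (blk (nodeO (m := m) β v)).length = 2 ^ (3 * m) * (3 * m + 4) + 11 := by
  rw [blk_length, nodeO, List.map_append, List.sum_append, skips_sum, List.map_map]
  have : ((univ : Finset (Lb m × Lb m × Lb m)).toList.map
      ((fun o : TT h m × List Bool × List Bool => 1 + (o.2.1.length + o.2.2.length)) ∘
        fun y => (Sum.inr (β, v, y), lb y.2.2, lb y.1 ++ lb y.2.1))) =
      (univ : Finset (Lb m × Lb m × Lb m)).toList.map (fun _ => 3 * m + 4) := by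
    refine List.map_congr_left fun c _ => ?_
    simp [lb_length]
    ring
  rw [this, List.map_const', List.sum_replicate, length_toList, card_univ]
  simp only [Fintype.card_prod, Fintype.card_fun, Fintype.card_bool, Fintype.card_fin, smul_eq_mul]
  have e : 2 ^ m * (2 ^ m * 2 ^ m) = 2 ^ (3 * m) := by
    rw [← pow_add, ← pow_add]
    congr 1
    ring
  rw [e]
  ring

/-- the length of a subtree -/
def lenT (m : ℕ) : ℕ → ℕ
  | 0 => 2 ^ m * (m + 2) + 11
  | i + 1 => (2 ^ (3 * m) * (3 * m + 4) + 11) + (lenT m i + lenT m i)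

theorem tre_length (β : ℕ) : ∀ (i : ℕ) (v : Nd h), (tre (m := m) β i v).length = lenT m i := by
  intro i
  induction i with
  | zero => intro v; exact leaf_length
  | succ i ih => intro v; rw [tre, List.length_append, List.length_append, node_length, ih, ih, lenT]

/-- the length of an instance -/
def len1 (h m : ℕ) : ℕ := (2 ^ m * (m + 6) + 11) + lenT m h

theorem many_length (h m M : ℕ) : (many h m M).length = M * len1 h m := by
  induction M with
  | zero => simp [many]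
  | succ M ih =>
    rw [many, List.length_append, ih, one, List.length_append, dec_length, tre_length,
      Nat.succ_mul, len1]

theorem ini_length : (blk (iniO h m)).length = 4 := by
  rw [blk_length]
  simp [iniO, mk_length]

theorem fin_length : (blk (finO h m)).length = 4 := by
  rw [blk_length]
  simp [finO, mk_length]

theorem tmpl_length (h m M i : ℕ) : (tmpl h m M i).length = M * len1 h m + i + 10 := by
  simp only [tmpl, List.length_append, List.length_cons, List.length_replicate,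
    List.length_nil, many_length, ini_length, fin_length]
  ring

theorem lenT_le (m i : ℕ) :
    lenT m i + (2 ^ (3 * m) * (3 * m + 4) + 11) ≤
      2 ^ i * (2 * (2 ^ (3 * m) * (3 * m + 4) + 11)) := by
  obtain ⟨X, hX⟩ : ∃ X, X = 2 ^ (3 * m) * (3 * m + 4) + 11 := ⟨_, rfl⟩
  have h1 : lenT m 0 ≤ X := by
    rw [lenT, hX]
    have h2 : 2 ^ m ≤ 2 ^ (3 * m) := Nat.pow_le_pow_right (by norm_num) (by omega)
    have h3 : m + 2 ≤ 3 * m + 4 := by omega
    have := Nat.mul_le_mul h2 h3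
    omega
  rw [← hX]
  induction i with
  | zero => simp only [pow_zero, one_mul]; omega
  | succ i ih =>
    have : 2 ^ (i + 1) * (2 * X) = 2 ^ i * (2 * X) + 2 ^ i * (2 * X) := by ring
    rw [lenT, this, ← hX]
    omega

theorem len1_le (h m : ℕ) : len1 h m ≤ 44 * (2 ^ h * (2 ^ (3 * m) * (3 * m + 1) + 1)) := by
  obtain ⟨Y, hY⟩ : ∃ Y, Y = 2 ^ (3 * m) * (3 * m + 1) + 1 := ⟨_, rfl⟩
  obtain ⟨X, hX⟩ : ∃ X, X = 2 ^ (3 * m) * (3 * m + 4) + 11 := ⟨_, rfl⟩
  have h0 := lenT_le m h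
  rw [← hX] at h0
  have hXY : X ≤ 11 * Y := by
    rw [hX, hY]
    have : 2 ^ (3 * m) * (3 * m + 4) ≤ 2 ^ (3 * m) * (11 * (3 * m + 1)) :=
      Nat.mul_le_mul_left _ (by omega)
    calc 2 ^ (3 * m) * (3 * m + 4) + 11 ≤ 2 ^ (3 * m) * (11 * (3 * m + 1)) + 11 := by omega
      _ = _ := by ring
  have h1 : 2 ^ m * (m + 6) + 11 ≤ 22 * Y := by
    have h2 : 2 ^ m ≤ 2 ^ (3 * m) := Nat.pow_le_pow_right (by norm_num) (by omega)
    have h3 : m + 6 ≤ 11 * (3 * m + 1) := by omega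
    have h4 := Nat.mul_le_mul h2 h3
    rw [hY]
    calc 2 ^ m * (m + 6) + 11 ≤ 2 ^ (3 * m) * (11 * (3 * m + 1)) + 11 := by omega
      _ ≤ 22 * (2 ^ (3 * m) * (3 * m + 1) + 1) := by nlinarith [Nat.zero_le (2 ^ (3 * m) * (3 * m + 1))]
  have h5 : 2 ^ h * (2 * X) ≤ 22 * (2 ^ h * Y) := by
    calc 2 ^ h * (2 * X) ≤ 2 ^ h * (2 * (11 * Y)) :=
          Nat.mul_le_mul_left _ (Nat.mul_le_mul_left _ hXY)
      _ = _ := by ring
  have h6 : Y ≤ 2 ^ h * Y := Nat.le_mul_of_pos_left _ (by positivity)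
  rw [len1, ← hY]
  omega

theorem len1_num (a C : ℕ) (ha : 10 + C ≤ a) (hC : 2 ≤ C) :
    len1 (2 * (32 * a)) (64 * a * C) ≤ 2 ^ ((68 + 192 * C) * a) := by
  have h1 := len1_le (2 * (32 * a)) (64 * a * C)
  have h2 := len_num a C ha hC
  have h3 : 44 * (2 ^ (2 * (32 * a)) * (2 ^ (3 * (64 * a * C)) * (3 * (64 * a * C) + 1) + 1)) ≤
      11 * (2 ^ (2 * (32 * a)) * (4 * (2 ^ (3 * (64 * a * C)) * (1 + 3 * (64 * a * C)) + 1)) + 2) := by
    have e : 3 * (64 * a * C) + 1 = 1 + 3 * (64 * a * C) := by ring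
    rw [e]
    nlinarith [Nat.zero_le (2 ^ (2 * (32 * a)) * (2 ^ (3 * (64 * a * C)) * (1 + 3 * (64 * a * C)) + 1))]
  have h4 : 11 * 2 ^ ((66 + 192 * C) * a) ≤ 2 ^ ((68 + 192 * C) * a) := by
    have e : (68 + 192 * C) * a = 2 * a + (66 + 192 * C) * a := by ring
    rw [e, pow_add]
    refine Nat.mul_le_mul_right _ ?_
    calc 11 ≤ 2 ^ 4 := by norm_num
      _ ≤ 2 ^ (2 * a) := Nat.pow_le_pow_right (by norm_num) (by omega)
  calc len1 (2 * (32 * a)) (64 * a * C) ≤ _ := h1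
    _ ≤ _ := h3
    _ ≤ 11 * 2 ^ ((66 + 192 * C) * a) := Nat.mul_le_mul_left _ h2
    _ ≤ _ := h4

theorem read_num2 {C a Λ r n M t : ℕ} {δ : ℝ} (hC : 2 ≤ C) (hCδ : 1 ≤ C * δ) (hδ : 0 < δ)
    (hM : M = 68 + 192 * C) (hΛ1 : Λ * (2 * (t + 1)) ≤ n) (hΛ3' : 3 ≤ Λ)
    (hrΛ : ((r : ℝ) + 1) * (n : ℝ) ^ δ ≤ 2 * ((Λ : ℝ) + 1)) (hδ1 : 0 ≤ 1 - δ)
    (hupr : (Λ : ℝ) + 1 ≤ (2 : ℝ) ^ (M * (a + 1))) (haC : 2 * C + 20 ≤ a) :
    r ≤ 2 ^ (192 * a * C - a) := by
  have hr0 : (0 : ℝ) < (r : ℝ) + 1 := by positivity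
  have h1 : (r : ℝ) + 1 ≤ 2 * ((Λ : ℝ) + 1) ^ (1 - δ) := by
    have h2 : ((Λ : ℝ) + 1) ≤ n := by
      have h3 : Λ * 2 ≤ n := by
        refine le_trans ?_ hΛ1
        exact Nat.mul_le_mul_left _ (by omega)
      exact_mod_cast (by omega : Λ + 1 ≤ n)
    have h4 : ((Λ : ℝ) + 1) ^ δ ≤ (n : ℝ) ^ δ := Real.rpow_le_rpow (by positivity) h2 hδ.le
    have h5 : 0 < ((Λ : ℝ) + 1) ^ δ := Real.rpow_pos_of_pos (by positivity) _
    have h6 : ((r : ℝ) + 1) * ((Λ : ℝ) + 1) ^ δ ≤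
        (2 * ((Λ : ℝ) + 1) ^ (1 - δ)) * ((Λ : ℝ) + 1) ^ δ := by
      calc ((r : ℝ) + 1) * ((Λ : ℝ) + 1) ^ δ ≤ ((r : ℝ) + 1) * (n : ℝ) ^ δ :=
            mul_le_mul_of_nonneg_left h4 hr0.le
        _ ≤ 2 * ((Λ : ℝ) + 1) := hrΛ
        _ = 2 * (((Λ : ℝ) + 1) ^ (1 - δ) * ((Λ : ℝ) + 1) ^ δ) := by
            rw [← Real.rpow_add (by positivity)]; simp
        _ = _ := by ring
    exact le_of_mul_le_mul_right h6 h5
  have hC0 : (0 : ℝ) < C := by exact_mod_cast (by omega : 0 < C)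
  have h2 : 1 - δ ≤ 1 - 1 / (C : ℝ) := by
    have : 1 / (C : ℝ) ≤ δ := by rw [div_le_iff₀ hC0, mul_comm]; exact hCδ
    linarith
  have h3 : ((Λ : ℝ) + 1) ^ (1 - δ) ≤ (2 : ℝ) ^ ((((192 * C - 124) * (a + 1) : ℕ)) : ℝ) := by
    calc ((Λ : ℝ) + 1) ^ (1 - δ) ≤ ((2 : ℝ) ^ (M * (a + 1))) ^ (1 - δ) :=
          Real.rpow_le_rpow (by positivity) hupr hδ1
      _ ≤ ((2 : ℝ) ^ (M * (a + 1))) ^ (1 - 1 / (C : ℝ)) :=
          Real.rpow_le_rpow_of_exponent_le (one_le_pow₀ (by norm_num)) h2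
      _ = (2 : ℝ) ^ ((M * (a + 1) : ℕ) * (1 - 1 / (C : ℝ))) := by
          rw [← Real.rpow_natCast, ← Real.rpow_mul (by norm_num)]
      _ ≤ (2 : ℝ) ^ ((((192 * C - 124) * (a + 1) : ℕ)) : ℝ) := by
          apply Real.rpow_le_rpow_of_exponent_le (by norm_num)
          have h4 : (((192 * C - 124 : ℕ)) : ℝ) = 192 * C - 124 := by
            rw [Nat.cast_sub (by omega)]
            push_cast
            ring
          push_cast [h4]
          have h5 : (M : ℝ) = 68 + 192 * C := by rw [hM]; push_cast; ring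
          have hC2 : (2 : ℝ) ≤ C := by exact_mod_cast hC
          have h6 : (M : ℝ) * (1 - 1 / C) ≤ 192 * C - 124 := by
            rw [h5]
            have h7 : (68 + 192 * (C : ℝ)) * (1 - 1 / C) = 192 * C - 124 - 68 / C := by
              field_simp
              ring
            rw [h7]
            have : 0 < 68 / (C : ℝ) := by positivity
            linarith
          have ha0 : (0 : ℝ) ≤ (a : ℝ) + 1 := by
            have := Nat.cast_nonneg (α := ℝ) a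
            linarith
          calc (M : ℝ) * (a + 1) * (1 - 1 / C) = (M * (1 - 1 / C)) * (a + 1) := by ring
            _ ≤ (192 * C - 124) * (a + 1) := mul_le_mul_of_nonneg_right h6 ha0
  rw [Real.rpow_natCast] at h3
  have h4 : r + 1 ≤ 2 * 2 ^ ((192 * C - 124) * (a + 1)) := by
    have : (r : ℝ) + 1 ≤ 2 * 2 ^ ((192 * C - 124) * (a + 1)) := by linarith
    exact_mod_cast this
  have h5 : 2 * 2 ^ ((192 * C - 124) * (a + 1)) ≤ 2 ^ (192 * a * C - a) := by
    rw [← pow_succ']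
    apply Nat.pow_le_pow_right (by norm_num)
    obtain ⟨D, hD⟩ : ∃ D, 192 * C = D + 124 := ⟨192 * C - 124, by omega⟩
    have e1 : 192 * C - 124 = D := by omega
    have e2 : 192 * a * C = a * (D + 124) := by rw [← hD]; ring
    rw [e1, e2]
    have e3 : a * (D + 124) = D * a + 124 * a := by ring
    have e4 : D * (a + 1) = D * a + D := by ring
    rw [e3, e4]
    have : D ≤ 192 * C := by omega
    omega
  omega

theorem exp_four : (48 : ℝ) < Real.exp 4 := by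
  have h3 : Real.exp 4 = Real.exp 1 ^ 4 := by rw [← Real.exp_nat_mul]; norm_num
  have h4 : (2.7 : ℝ) < Real.exp 1 := by
    have := Real.exp_one_gt_d9
    linarith
  rw [h3]
  calc (48 : ℝ) < 2.7 ^ 4 := by norm_num
    _ ≤ _ := pow_le_pow_left₀ (by norm_num) h4.le 4

theorem size_num {n a : ℕ} {κ l : ℝ} (hnpos : (0 : ℝ) < n) (hl : l = Real.log n) (hl4 : 4 ≤ l)
    (hκ0 : 0 < κ) (hlκ : 13 / κ ^ 2 ≤ l) (hal : κ * l ≤ a) :
    16 * (n : ℝ) * ((n : ℝ) ^ (κ ^ 2 / 4 * l) + 2) < 2 ^ (a * a) := by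
  have hl2 : 0 < Real.log 2 := Real.log_pos (by norm_num)
  have hl2'' : 0.69 < Real.log 2 := by
    have := Real.log_two_gt_d9
    linarith
  have hc : (n : ℝ) ^ (κ ^ 2 / 4 * l) = Real.exp (κ ^ 2 / 4 * l ^ 2) := by
    rw [Real.rpow_def_of_pos hnpos, ← hl]
    congr 1
    ring
  have h1 : 1 ≤ (n : ℝ) ^ (κ ^ 2 / 4 * l) := by
    rw [hc, Real.one_le_exp_iff]
    positivity
  have h2 : 16 * (n : ℝ) * ((n : ℝ) ^ (κ ^ 2 / 4 * l) + 2) ≤
      48 * (n * (n : ℝ) ^ (κ ^ 2 / 4 * l)) := by nlinarith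
  have h3 : (n : ℝ) = Real.exp l := by rw [hl]; exact (Real.exp_log hnpos).symm
  have h48 : (48 : ℝ) < Real.exp 4 := exp_four
  have h4 : 48 * (n * (n : ℝ) ^ (κ ^ 2 / 4 * l)) < Real.exp (4 + (l + κ ^ 2 / 4 * l ^ 2)) := by
    rw [Real.exp_add, Real.exp_add, hc, ← h3]
    exact mul_lt_mul_of_pos_right h48 (by positivity)
  have h5 : (2 : ℝ) ^ (a * a) = Real.exp ((a * a : ℕ) * Real.log 2) := by
    rw [Real.exp_nat_mul, Real.exp_log (by norm_num)]
  have h6 : 4 + (l + κ ^ 2 / 4 * l ^ 2) ≤ (a * a : ℕ) * Real.log 2 := by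
    have h7 : (κ * l) * (κ * l) ≤ (a : ℝ) * a :=
      mul_le_mul hal hal (by positivity) (Nat.cast_nonneg a)
    have h8 : 13 ≤ κ ^ 2 * l := by
      rw [div_le_iff₀ (by positivity)] at hlκ
      linarith
    have h9 : 0.69 * ((κ * l) * (κ * l)) ≤ ((a : ℝ) * a) * Real.log 2 := by
      have : (0 : ℝ) ≤ (κ * l) * (κ * l) := by positivity
      calc 0.69 * ((κ * l) * (κ * l)) ≤ Real.log 2 * ((κ * l) * (κ * l)) :=
            mul_le_mul_of_nonneg_right hl2''.le this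
        _ ≤ Real.log 2 * ((a : ℝ) * a) := mul_le_mul_of_nonneg_left h7 hl2.le
        _ = _ := by ring
    push_cast
    have h10 : 13 * l ≤ κ ^ 2 * l * l := mul_le_mul_of_nonneg_right h8 (by linarith)
    nlinarith
  calc 16 * (n : ℝ) * ((n : ℝ) ^ (κ ^ 2 / 4 * l) + 2) ≤ _ := h2
    _ < _ := h4
    _ ≤ Real.exp ((a * a : ℕ) * Real.log 2) := Real.exp_le_exp.2 h6
    _ = _ := h5.symm

theorem hal_num {κ l a M δ : ℝ} (h3 : δ * l ≤ M * (a + 1) + 1) (hM : 1 ≤ M)
    (h4 : 4 * M * κ = δ) (h5 : 20 ≤ κ * l) : κ * l ≤ a := by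
  have h6 : M * (4 * (κ * l)) ≤ M * (a + 2) := by
    have h7 : M * (4 * (κ * l)) = δ * l := by rw [← h4]; ring
    rw [h7]
    linarith
  have h8 := le_of_mul_le_mul_left h6 (by linarith)
  linarith

/-- The choice of the parameters. -/
theorem params (δ : ℝ) (hδ : 0 < δ) : ∃ c : ℝ, 0 < c ∧ ∃ n₀ : ℕ, ∀ n ≥ n₀, ∀ t r : ℕ,
    ((r : ℝ) + 1) * ((t : ℝ) + 1) ≤ (n : ℝ) ^ (1 - δ) →
    ∃ a C i : ℕ, 2 ≤ a ∧ 2 ≤ C ∧ (tmpl (2 * (32 * a)) (64 * a * C) (t + 1) i).length = n ∧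
      r ≤ 2 ^ (192 * a * C - a) ∧
      16 * (n : ℝ) * ((n : ℝ) ^ (c * Real.log n) + 2) < 2 ^ (a * a) := by
  obtain ⟨C, hC, hCδ⟩ : ∃ C : ℕ, 2 ≤ C ∧ 1 ≤ C * δ := by
    obtain ⟨C, hC⟩ := exists_nat_ge (1 / δ)
    refine ⟨max 2 C, le_max_left _ _, ?_⟩
    rw [div_le_iff₀ hδ] at hC
    refine hC.trans (mul_le_mul_of_nonneg_right ?_ hδ.le)
    exact_mod_cast le_max_right _ _
  obtain ⟨M, hM⟩ : ∃ M, M = 68 + 192 * C := ⟨_, rfl⟩
  have hM0 : 0 < M := by omega
  have hMr : (0 : ℝ) < M := by exact_mod_cast hM0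
  set κ : ℝ := δ / (4 * M) with hκ
  have hκ0 : 0 < κ := by positivity
  set Lm : ℝ := max (max 4 (8 / δ)) (max ((2 * C + 20) / κ) (13 / κ ^ 2)) with hLm
  refine ⟨κ ^ 2 / 4, by positivity, ⌈Real.exp Lm⌉₊, ?_⟩
  intro n hn t r hrt
  have hn1 : Real.exp Lm ≤ n := (Nat.le_ceil _).trans (by exact_mod_cast hn)
  have hnpos : (0 : ℝ) < n := (Real.exp_pos _).trans_le hn1
  set l := Real.log n with hl
  have hlL : Lm ≤ l := by
    rw [hl, Real.le_log_iff_exp_le hnpos]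
    exact hn1
  have hl4 : 4 ≤ l := ((le_max_left _ _).trans (le_max_left _ _)).trans hlL
  have hl8 : 8 / δ ≤ l := ((le_max_right _ _).trans (le_max_left _ _)).trans hlL
  have hlC : (2 * C + 20) / κ ≤ l := ((le_max_left _ _).trans (le_max_right _ _)).trans hlL
  have hlκ : 13 / κ ^ 2 ≤ l := ((le_max_right _ _).trans (le_max_right _ _)).trans hlL
  have hn20 : (20 : ℝ) ≤ n := by
    have h1 : Real.exp 4 ≤ n := by
      refine le_trans ?_ hn1
      exact Real.exp_le_exp.2 (by rw [hLm]; exact (le_max_left _ _).trans (le_max_left _ _))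
    have h2 := exp_four
    linarith
  have hn20' : 20 ≤ n := by exact_mod_cast hn20
  -- the budget of one instance
  obtain ⟨Λ, hΛ⟩ : ∃ Λ, Λ = n / (2 * (t + 1)) := ⟨_, rfl⟩
  have hΛ1 : Λ * (2 * (t + 1)) ≤ n := by rw [hΛ]; exact Nat.div_mul_le_self _ _
  have hΛ2 : n < (Λ + 1) * (2 * (t + 1)) := by
    rw [hΛ]
    exact Nat.lt_mul_of_div_lt (Nat.lt_succ_self _) (by omega)
  have ht0 : (0 : ℝ) < (t : ℝ) + 1 := by positivity
  have hr0 : (0 : ℝ) < (r : ℝ) + 1 := by positivity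
  have hnδ0 : 0 < (n : ℝ) ^ δ := Real.rpow_pos_of_pos hnpos _
  have h1n : (1 : ℝ) < n := by linarith
  have hδ1 : 0 ≤ 1 - δ := by
    by_contra hcon
    rw [not_le] at hcon
    have h1 : (n : ℝ) ^ (1 - δ) < 1 := Real.rpow_lt_one_of_one_lt_of_neg h1n hcon
    have h2 : (1 : ℝ) ≤ ((r : ℝ) + 1) * ((t : ℝ) + 1) := by
      have : (0 : ℝ) ≤ r := Nat.cast_nonneg r
      have : (0 : ℝ) ≤ t := Nat.cast_nonneg t
      nlinarith
    linarith
  have hrΛ : ((r : ℝ) + 1) * (n : ℝ) ^ δ ≤ 2 * ((Λ : ℝ) + 1) := by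
    have h1 : ((r : ℝ) + 1) * ((t : ℝ) + 1) * (n : ℝ) ^ δ ≤ n := by
      calc ((r : ℝ) + 1) * ((t : ℝ) + 1) * (n : ℝ) ^ δ ≤ (n : ℝ) ^ (1 - δ) * (n : ℝ) ^ δ :=
            mul_le_mul_of_nonneg_right hrt hnδ0.le
        _ = n := by rw [← Real.rpow_add hnpos]; simp
    have h2 : (n : ℝ) ≤ ((Λ : ℝ) + 1) * (2 * ((t : ℝ) + 1)) := by exact_mod_cast hΛ2.le
    have h3 : (((r : ℝ) + 1) * (n : ℝ) ^ δ) * ((t : ℝ) + 1) ≤
        (2 * ((Λ : ℝ) + 1)) * ((t : ℝ) + 1) := by nlinarith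
    exact le_of_mul_le_mul_right h3 ht0
  have hδl : 8 ≤ δ * l := by
    rw [div_le_iff₀ hδ] at hl8
    linarith
  have hnδ : (n : ℝ) ^ δ = Real.exp (δ * l) := by
    rw [Real.rpow_def_of_pos hnpos, hl, mul_comm]
  have hnδ8 : (8 : ℝ) ≤ (n : ℝ) ^ δ := by
    rw [hnδ]
    have := Real.add_one_le_exp (δ * l)
    linarith
  have hΛ3 : (3 : ℝ) ≤ Λ := by
    have : (n : ℝ) ^ δ ≤ 2 * ((Λ : ℝ) + 1) := by
      refine le_trans ?_ hrΛ
      have : (0 : ℝ) ≤ r := Nat.cast_nonneg r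
      nlinarith
    linarith
  have hΛ3' : 3 ≤ Λ := by exact_mod_cast hΛ3
  obtain ⟨a, ha⟩ : ∃ a, a = Nat.log 2 Λ / M := ⟨_, rfl⟩
  have hlow : 2 ^ (M * a) ≤ Λ := by
    refine Nat.pow_le_of_le_log (by omega) ?_
    rw [ha]; exact Nat.mul_div_le _ _
  have hup : Λ + 1 ≤ 2 ^ (M * (a + 1)) := by
    have h1 : Λ < 2 ^ (Nat.log 2 Λ + 1) := Nat.lt_pow_succ_log_self (by norm_num) Λ
    refine (Nat.succ_le_of_lt h1).trans (Nat.pow_le_pow_right (by norm_num) ?_)
    have h2 := Nat.lt_mul_div_succ (Nat.log 2 Λ) hM0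
    rw [← ha] at h2
    exact h2
  have hupr : (Λ : ℝ) + 1 ≤ (2 : ℝ) ^ (M * (a + 1)) := by exact_mod_cast hup
  have hl2 : 0 < Real.log 2 := Real.log_pos (by norm_num)
  have hl2' : Real.log 2 < 1 := by
    have := Real.log_two_lt_d9
    linarith
  have hl2'' : 0.69 < Real.log 2 := by
    have := Real.log_two_gt_d9
    linarith
  have hal : κ * l ≤ a := by
    have h1 : (n : ℝ) ^ δ ≤ (2 : ℝ) ^ (M * (a + 1) + 1) := by
      rw [pow_succ]
      have h2 : (n : ℝ) ^ δ ≤ ((r : ℝ) + 1) * (n : ℝ) ^ δ := by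
        have : (0 : ℝ) ≤ r := Nat.cast_nonneg r
        nlinarith
      linarith
    have h2 := Real.log_le_log hnδ0 h1
    rw [hnδ, Real.log_exp, Real.log_pow] at h2
    have h3 : δ * l ≤ M * (a + 1) + 1 := by
      refine h2.trans ?_
      push_cast
      have : (0 : ℝ) ≤ (M : ℝ) * (a + 1) + 1 := by positivity
      nlinarith
    have h4 : 4 * M * κ = δ := by rw [hκ]; field_simp
    have h5 : (2 * C + 20 : ℝ) ≤ κ * l := by
      rw [div_le_iff₀ hκ0] at hlC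
      linarith
    have h6 : (0 : ℝ) ≤ C := Nat.cast_nonneg C
    have h8 : (1 : ℝ) ≤ M := by exact_mod_cast hM0
    exact hal_num h3 h8 h4 (by linarith)
  have haC : 2 * C + 20 ≤ a := by
    have h5 : (2 * C + 20 : ℝ) ≤ κ * l := by
      rw [div_le_iff₀ hκ0] at hlC
      linarith
    exact_mod_cast h5.trans hal
  have hlen : (t + 1) * len1 (2 * (32 * a)) (64 * a * C) + 10 ≤ n := by
    have h1 := len1_num a C (by omega) hC
    rw [← hM] at h1
    have h2 : (t + 1) * len1 (2 * (32 * a)) (64 * a * C) ≤ (t + 1) * Λ :=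
      Nat.mul_le_mul_left _ (h1.trans hlow)
    have h3 : Λ * (2 * (t + 1)) = 2 * ((t + 1) * Λ) := by ring
    omega
  refine ⟨a, C, n - ((t + 1) * len1 (2 * (32 * a)) (64 * a * C) + 10), by omega, hC, ?_, ?_, ?_⟩
  · rw [tmpl_length]; omega
  · exact read_num2 hC hCδ hδ hM hΛ1 hΛ3' hrΛ hδ1 hupr haC
  · exact size_num hnpos hl hl4 hκ0 hlκ hal

end Pool.Agent.T9h97.CFL
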