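import Mathlib
import Pool.Agent.T9h47.MN.Num

/-!
# The lower bound for networks

A copy of the theorem `Pool.Agent.T9h47.MN.lower` which speaks of networks instead of programs.
-/

set_option autoImplicit false

namespace Pool.Agent.T9h97.CFL

open Finset Pool.Agent.T9h47.MN

theorem lower_net (a C : ℕ) (ha : 2 ≤ a) (hC : 2 ≤ C)
    (N : Net (Var (2 * (32 * a)) (Lb (64 * a * C)))) [Fintype N.E] (h1 : N.Mono)
    (h2 : ∀ e, ∃ I : Finset (Var (2 * (32 * a)) (Lb (64 * a * C))),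
      I.card ≤ 2 ^ (192 * a * C - a) ∧ DepOn (N.guard e) I)
    (h3 : ∀ l : Nd (2 * (32 * a)) → Lb (64 * a * C), N.Reach (posT l) N.t)
    (h4 : ∀ χ, ¬ N.Reach (negT χ) N.t) :
    2 ^ (a * a) ≤ 16 * Fintype.card N.E := by
  by_contra hcon
  rw [not_le] at hcon
  obtain ⟨t, ht⟩ : ∃ t, 3 * t + 1 = 4 ^ (32 * a) := by
    have h5 : 4 ^ (32 * a) % 3 = 1 := by rw [Nat.pow_mod]; norm_num
    exact ⟨4 ^ (32 * a) / 3, by omega⟩
  have h44 : 4 ^ (32 * a) = 2 ^ (2 * (32 * a)) := by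
    rw [pow_mul 2 2]; norm_num
  have hbig : 2 ^ 64 ≤ 2 ^ (2 * (32 * a)) := Nat.pow_le_pow_right (by norm_num) (by omega)
  obtain ⟨sz, hE⟩ : ∃ sz, sz = Fintype.card N.E := ⟨_, rfl⟩
  rw [← hE] at hcon
  have hLab : Fintype.card (Lb (64 * a * C)) = 2 ^ (64 * a * C) := by simp
  have h64 : 2 * (32 * a) = 64 * a := by ring
  have hNd : Fintype.card (Nd (2 * (32 * a))) = 2 ^ (64 * a + 1) := by rw [← h64]; simp
  have hs16 : sz + 1 ≤ 2 ^ (a * a) := by omega
  refine core N a (2 * a) (2 ^ (7 * a) * ((448 * (C + 1) + 40) * (a * a))) h1 ?_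
    (K := 7 * a) (t := t) (a := a) (r := 2 ^ (192 * a * C - a)) rfl (by omega) ?_ ?_ ?_ h2 h3 h4
    ?_ ?_ ?_ ?_
  · exact Nat.mul_pos (by positivity) (Nat.mul_pos (by omega) (Nat.mul_pos (by omega) (by omega)))
  · rw [h44] at ht; omega
  · rw [card_inner, ← h44]; rw [← h44] at hbig; omega
  · intro α D hα hcr hcard
    have := iso (32 * a) t ht α D hα hcard hcr
    omega
  · rw [hLab]; positivity
  · rw [Fintype.card_prod, hLab, hNd, ← hE]
    exact hC1_num a C sz (by omega) hs16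
  · rw [hLab, hNd, div_le_one (by positivity)]
    have h5 := beta_num a C (by omega) hC
    have h6 : (2 * 2 ^ (64 * a + 1) * (7 * a) * (2 ^ (7 * a) * ((448 * (C + 1) + 40) * (a * a))) *
      2 ^ a : ℝ) ≤ 2 ^ (64 * a * C) := by exact_mod_cast h5
    push_cast
    refine le_trans ?_ h6
    refine le_mul_of_one_le_right (by positivity) (one_le_pow₀ (by norm_num))
  · rw [hLab, hNd, ← hE]
    have h5 := beta_num a C (by omega) hC
    have h6 : (2 * 2 ^ (64 * a + 1) * (7 * a) * (2 ^ (7 * a) * ((448 * (C + 1) + 40) * (a * a))) *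
      2 ^ a : ℝ) ≤ 2 ^ (64 * a * C) := by exact_mod_cast h5
    obtain ⟨β, hβ⟩ : ∃ β : ℝ, β = (2 * ((2 ^ (64 * a + 1) : ℕ) : ℝ) * ((7 * a : ℕ) : ℝ) *
      ((2 ^ (7 * a) * ((448 * (C + 1) + 40) * (a * a)) : ℕ) : ℝ)) /
      ((2 ^ (64 * a * C) : ℕ) : ℝ) := ⟨_, rfl⟩
    rw [← hβ]
    have hβ0 : 0 ≤ β := by rw [hβ]; positivity
    have hβ1 : β ≤ 1 / 2 ^ a := by
      rw [hβ, div_le_div_iff₀ (by positivity) (by positivity), one_mul]
      push_cast
      exact h6
    have hpow : β ^ (a + 1) ≤ 1 / (2 ^ (a * a) * 2 ^ a) := by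
      calc β ^ (a + 1) ≤ (1 / 2 ^ a) ^ (a + 1) := pow_le_pow_left₀ hβ0 hβ1 _
        _ = 1 / (2 ^ (a * a) * 2 ^ a) := by
          rw [div_pow, one_pow, ← pow_mul, mul_add, mul_one, pow_add]
    have hr : (((2 ^ (192 * a * C - a) : ℕ) : ℝ) / (((2 ^ (64 * a * C) : ℕ) : ℝ)) ^ 3) ^ a =
        1 / 2 ^ (a * a) := by
      have h7 : ((2 ^ (192 * a * C - a) : ℕ) : ℝ) / (((2 ^ (64 * a * C) : ℕ) : ℝ)) ^ 3 =
          1 / 2 ^ a := by
        rw [div_eq_div_iff (by positivity) (by positivity)]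
        push_cast
        rw [one_mul, ← pow_add, ← pow_mul]
        congr 1
        have h8 : a ≤ 192 * a * C := by nlinarith
        have h9 : 192 * a * C = 64 * a * C * 3 := by ring
        rw [← h9]
        exact Nat.sub_add_cancel h8
      rw [h7, div_pow, one_pow, ← pow_mul]
    rw [hr]
    have ha2 : (a : ℝ) ≤ 2 ^ a := by exact_mod_cast Nat.lt_two_pow_self.le
    have hs : (16 * sz : ℝ) < 2 ^ (a * a) := by exact_mod_cast hcon
    calc (sz : ℝ) * (2 * ((7 * a : ℕ) : ℝ) * β ^ (a + 1) + 2 * (1 / 2 ^ (a * a)))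
        ≤ (sz : ℝ) * (14 * (1 / 2 ^ (a * a)) + 2 * (1 / 2 ^ (a * a))) := by
          refine mul_le_mul_of_nonneg_left ?_ (by positivity)
          refine add_le_add_left ?_ _
          push_cast
          calc 2 * (7 * (a : ℝ)) * β ^ (a + 1)
              ≤ 2 * (7 * (2 ^ a)) * (1 / (2 ^ (a * a) * 2 ^ a)) := by
                refine mul_le_mul (by linarith) hpow (by positivity) (by positivity)
            _ = 14 * (1 / 2 ^ (a * a)) := by field_simp; norm_num
      _ = (16 * sz : ℝ) / 2 ^ (a * a) := by ring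
      _ < 1 := by rw [div_lt_one (by positivity)]; exact hs

end Pool.Agent.T9h97.CFL
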