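import Mathlib
import Pool.Agent.T9h97.CFL.Len
import Pool.Agent.T9h97.CFL.NetLow
import Pool.Agent.T9h47.MN.Prog

/-!
# The direct sum argument for networks
-/

set_option autoImplicit false

namespace Pool.Agent.T9h97.CFL

open Finset Pool.Agent.T9h47.MN
open Ltr St

/-- Replacing blocks one after another: if each replacement of a zero block can increase the
rank, then the rank reaches the number of blocks. -/
theorem hybrid {X Y : Type} {M : ℕ} (asm : (Fin M → Y) → X) (zero : Y) (N : Y → Prop) (Φ : X → ℕ)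
    (step : ∀ (w : Fin M → Y) (β : Fin M), (∀ γ, N (w γ) ∨ w γ = zero) → w β = zero →
      ∃ z, N z ∧ Φ (asm w) < Φ (asm (Function.update w β z))) :
    ∃ w, (∀ γ, N (w γ) ∨ w γ = zero) ∧ M ≤ Φ (asm w) := by
  have key : ∀ i ≤ M, ∃ w : Fin M → Y, (∀ γ, N (w γ) ∨ w γ = zero) ∧
      (∀ γ : Fin M, i ≤ γ.1 → w γ = zero) ∧ i ≤ Φ (asm w) := by
    intro i
    induction i with
    | zero => exact fun _ => ⟨fun _ => zero, fun _ => Or.inr rfl, fun _ _ => rfl, Nat.zero_le _⟩
    | succ i ih =>
      intro hi
      obtain ⟨w, h1, h2, h3⟩ := ih (by omega)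
      obtain ⟨z, hz, hΦ⟩ := step w ⟨i, by omega⟩ h1 (h2 _ le_rfl)
      refine ⟨Function.update w ⟨i, by omega⟩ z, ?_, ?_, by omega⟩
      · intro γ
        by_cases hγ : γ = ⟨i, by omega⟩
        · subst hγ
          rw [Function.update_self]
          exact Or.inl hz
        · rw [Function.update_of_ne hγ]
          exact h1 γ
      · intro γ hγ
        rw [Function.update_of_ne]
        · exact h2 γ (by omega)
        · intro h
          rw [h] at hγ
          simp at hγ
  obtain ⟨w, h1, _, h3⟩ := key M le_rfl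
  exact ⟨w, h1, h3⟩

variable {h m M i n : ℕ}

/-- the set of variables given by the instances -/
def un (w : Fin M → Set (Var h (Lb m))) : Set (ℕ × Var h (Lb m)) :=
  {p | ∃ hp : p.1 < M, p.2 ∈ w ⟨p.1, hp⟩}

/-- the word given by the instances -/
noncomputable def asm (hn : (tmpl h m M i).length = n) (w : Fin M → Set (Var h (Lb m))) :
    Fin n → Ltr := fun j => evv (un w) ((tmpl h m M i).get (j.cast hn.symm))

theorem ofFn_asm (hn : (tmpl h m M i).length = n) (w : Fin M → Set (Var h (Lb m))) :
    List.ofFn (asm hn w) = (tmpl h m M i).map (evv (un w)) := by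
  subst hn
  unfold asm
  apply List.ext_get
  · simp
  · intro k h1 h2
    simp

theorem evv_mono {x y : Set (ℕ × Var h (Lb m))} (hxy : x ⊆ y) (c : TT h m) :
    evv x c ≤ evv y c := by
  cases c with
  | inl c => exact le_rfl
  | inr q =>
    unfold evv
    by_cases h1 : q ∈ x
    · simp [h1, hxy h1]
    · simp only [h1, if_false]
      split_ifs
      · exact Or.inr ⟨rfl, rfl⟩
      · exact le_rfl

theorem asm_mono (hn : (tmpl h m M i).length = n) {w w' : Fin M → Set (Var h (Lb m))}
    (hw : ∀ β, w β ⊆ w' β) (j : Fin n) : asm hn w j ≤ asm hn w' j := by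
  apply evv_mono
  rintro p ⟨hp, h1⟩
  exact ⟨hp, hw _ h1⟩

theorem asm_pos (hn : (tmpl h m M i).length = n) {w : Fin M → Set (Var h (Lb m))} (β : Fin M)
    (l : Nd h → Lb m) (hβ : posT l ⊆ w β) : List.ofFn (asm hn w) ∈ Lg := by
  rw [ofFn_asm]
  exact tmpl_pos _ _ _ ⟨β.1, β.2, l, fun q hq => ⟨β.2, hβ hq⟩⟩

theorem asm_neg (hh : 1 ≤ h) (hn : (tmpl h m M i).length = n) {w : Fin M → Set (Var h (Lb m))}
    (hw : ∀ β, ∃ χ : Nd h × Lb m → Bool, w β ⊆ negT χ) : List.ofFn (asm hn w) ∉ Lg := by
  rw [ofFn_asm]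
  refine tmpl_neg hh _ _ _ fun β hβ => ?_
  obtain ⟨χ, hχ⟩ := hw ⟨β, hβ⟩
  exact ⟨χ, fun q ⟨_, hq⟩ => hχ hq⟩

open Classical in
/-- the letters depend on at most one variable of the block -/
theorem asm_dep (hn : (tmpl h m M i).length = n) (w : Fin M → Set (Var h (Lb m))) (β : Fin M)
    (j : Fin n) : ∃ I : Finset (Var h (Lb m)), I.card ≤ 1 ∧ ∀ y y' : Set (Var h (Lb m)),
      y ∩ I = y' ∩ I → asm hn (Function.update w β y) j = asm hn (Function.update w β y') j := by
  cases hc : (tmpl h m M i).get (j.cast hn.symm) with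
  | inl c =>
    refine ⟨∅, by simp, fun y y' _ => ?_⟩
    unfold asm
    rw [hc]
    rfl
  | inr p =>
    by_cases hp : p.1 = β.1
    · refine ⟨{p.2}, by simp, fun y y' hyy => ?_⟩
      unfold asm
      rw [hc]
      have h1 : p.2 ∈ y ↔ p.2 ∈ y' := by
        have h3 := congrArg (fun S : Set (Var h (Lb m)) => p.2 ∈ S) hyy
        simpa using h3
      have h2 : ∀ y : Set (Var h (Lb m)), p ∈ un (Function.update w β y) ↔ p.2 ∈ y := by
        intro y
        unfold un
        constructor
        · rintro ⟨hpM, h3⟩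
          have : (⟨p.1, hpM⟩ : Fin M) = β := Fin.ext hp
          rw [this, Function.update_self] at h3
          exact h3
        · intro h3
          refine ⟨by rw [hp]; exact β.2, ?_⟩
          have : (⟨p.1, by rw [hp]; exact β.2⟩ : Fin M) = β := Fin.ext hp
          rw [this, Function.update_self]
          exact h3
      unfold evv
      simp only [h2, h1]
    · refine ⟨∅, by simp, fun y y' _ => ?_⟩
      unfold asm
      rw [hc]
      have h2 : ∀ y : Set (Var h (Lb m)), p ∈ un (Function.update w β y) ↔ p ∈ un w := by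
        intro y
        unfold un
        constructor
        · rintro ⟨hpM, h3⟩
          have : (⟨p.1, hpM⟩ : Fin M) ≠ β := fun h => hp (congrArg Fin.val h)
          rw [Function.update_of_ne this] at h3
          exact ⟨hpM, h3⟩
        · rintro ⟨hpM, h3⟩
          have : (⟨p.1, hpM⟩ : Fin M) ≠ β := fun h => hp (congrArg Fin.val h)
          exact ⟨hpM, by rw [Function.update_of_ne this]; exact h3⟩
      unfold evv
      simp only [h2]

/-- `SepNet f Φ s r X`: whenever `x0` is below all inputs `g y` of a block and the rank `Φ` does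
not grow from `x0` to the negative inputs of the block, a monotone network with at most `s` edges,
which depend on at most `r` variables each, separates the positive from the negative inputs of the
block. -/
def SepNet {Γ : Type} [PartialOrder Γ] (f : (Fin n → Γ) → Prop) (Φ : (Fin n → Γ) → ℕ) (s r : ℕ)
    (X : Type) : Prop :=
  ∀ (g : Set X → (Fin n → Γ)) (x0 : Fin n → Γ) (NN PP : Set X → Prop),
    (∀ y y', y ⊆ y' → ∀ j, g y j ≤ g y' j) →
    (∀ j, ∃ I : Finset X, I.card ≤ 1 ∧ ∀ y y' : Set X, y ∩ I = y' ∩ I → g y j = g y' j) →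
    (∀ y j, x0 j ≤ g y j) →
    (∀ z, NN z → ¬ f (g z) ∧ ¬ Φ x0 < Φ (g z)) →
    (∀ z, PP z → f (g z)) →
    ∃ (N : Net X) (_ : Fintype N.E), Fintype.card N.E ≤ s ∧ N.Mono ∧
      (∀ e, ∃ I : Finset X, I.card ≤ r ∧ DepOn (N.guard e) I) ∧
      (∀ z, PP z → N.Reach z N.t) ∧ ∀ z, NN z → ¬ N.Reach z N.t

theorem core_net {a C : ℕ} (ha : 2 ≤ a) (hC : 2 ≤ C)
    (hn : (tmpl (2 * (32 * a)) (64 * a * C) M i).length = n) {f : (Fin n → Ltr) → Prop}
    (hf : ∀ x, f x ↔ List.ofFn x ∈ Lg) {Φ : (Fin n → Ltr) → ℕ} {s r : ℕ}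
    (hS : SepNet f Φ s r (Var (2 * (32 * a)) (Lb (64 * a * C))))
    (hr : r ≤ 2 ^ (192 * a * C - a)) (hs : 16 * s < 2 ^ (a * a)) : ∃ x, M ≤ Φ x := by
  classical
  obtain ⟨w, -, hw⟩ := hybrid (asm hn) ∅
    (fun z => ∃ χ : Nd (2 * (32 * a)) × Lb (64 * a * C) → Bool, z = negT χ) Φ (by
      intro w β hw hβ
      by_contra hcon
      push Not at hcon
      obtain ⟨N, hfin, h1, h2, h3, h4, h5⟩ := hS (fun y => asm hn (Function.update w β y))
        (asm hn w)
        (fun z => ∃ χ : Nd (2 * (32 * a)) × Lb (64 * a * C) → Bool, z = negT χ)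
        (fun z => ∃ l : Nd (2 * (32 * a)) → Lb (64 * a * C), z = posT l)
        (by
          intro y y' hyy j
          refine asm_mono hn (fun γ => ?_) j
          by_cases hγ : γ = β
          · subst hγ
            rw [Function.update_self, Function.update_self]
            exact hyy
          · rw [Function.update_of_ne hγ, Function.update_of_ne hγ])
        (asm_dep hn w β)
        (by
          intro y j
          refine asm_mono hn (fun γ => ?_) j
          by_cases hγ : γ = β
          · subst hγ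
            rw [Function.update_self, hβ]
            exact Set.empty_subset _
          · rw [Function.update_of_ne hγ])
        (by
          intro z hz
          refine ⟨?_, not_lt.2 (hcon z hz)⟩
          rw [hf]
          refine asm_neg (by omega) hn fun γ => ?_
          by_cases hγ : γ = β
          · subst hγ
            rw [Function.update_self]
            obtain ⟨χ, rfl⟩ := hz
            exact ⟨χ, subset_rfl⟩
          · rw [Function.update_of_ne hγ]
            rcases hw γ with ⟨χ, hχ⟩ | h0
            · exact ⟨χ, hχ.subset⟩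
            · rw [h0]
              exact ⟨fun _ => true, Set.empty_subset _⟩)
        (by
          rintro z ⟨l, rfl⟩
          rw [hf]
          refine asm_pos hn β l ?_
          rw [Function.update_self])
      have := lower_net a C ha hC N h2 (fun e => by
        obtain ⟨I, hI1, hI2⟩ := h3 e
        exact ⟨I, hI1.trans hr, hI2⟩) (fun l => h4 _ ⟨l, rfl⟩) (fun χ => h5 _ ⟨χ, rfl⟩)
      omega)
  exact ⟨_, hw⟩

end Pool.Agent.T9h97.CFL
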