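import Mathlib
import Pool.Agent.T9h97.CFL.Core
import Pool.Agent.T9h47.MN.Bin

/-!
# The binary alphabet
-/

set_option autoImplicit false

namespace Pool.Agent.T9h97.CFL

open Finset Pool.Agent.T9h47.MN
open Ltr St

theorem enc_dep {n' n : ℕ} (j : Fin n) : (∃ k : Fin n', ∀ x y : Fin n' → Ltr, x k = y k →
    enc n x j = enc n y j) ∨ ∀ x y : Fin n' → Ltr, enc n x j = enc n y j := by
  by_cases hj : j.val / 5 < n'
  · left
    refine ⟨⟨j.val / 5, hj⟩, fun x y h => ?_⟩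
    unfold enc
    rw [dif_pos hj, dif_pos hj, h]
  · right
    intro x y
    unfold enc
    rw [dif_neg hj, dif_neg hj]

theorem SepNet.enc {n n' s r : ℕ} {X : Type} {f : (Fin n → Bool) → Prop}
    {Φ : (Fin n → Bool) → ℕ} (hS : SepNet f Φ s r X) :
    SepNet (fun x : Fin n' → Ltr => f (enc n x)) (fun x => Φ (enc n x)) s r X := by
  classical
  intro g x0 NN PP h1 h2 h3 h4 h5
  refine hS (fun y => T9h47.MN.enc n (g y)) (T9h47.MN.enc n x0) NN PP ?_ ?_ ?_ h4 h5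
  · intro y y' hyy j
    exact enc_mono n (h1 y y' hyy) j
  · intro j
    rcases enc_dep (n' := n') j with ⟨k, hk⟩ | hk
    · obtain ⟨I, hI1, hI2⟩ := h2 k
      exact ⟨I, hI1, fun y y' hyy => hk _ _ (hI2 y y' hyy)⟩
    · exact ⟨∅, by simp, fun y y' _ => hk _ _⟩
  · intro y j
    exact enc_mono n (h3 y) j

theorem core_bool {a C M i n n' : ℕ} (ha : 2 ≤ a) (hC : 2 ≤ C)
    (hn : (tmpl (2 * (32 * a)) (64 * a * C) M i).length = n') (hnn : n' = n / 5)
    {f : (Fin n → Bool) → Prop}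
    (hf : ∀ x, f x ↔ List.ofFn x ∈ LB) {Φ : (Fin n → Bool) → ℕ} {s r : ℕ}
    (hS : SepNet f Φ s r (Var (2 * (32 * a)) (Lb (64 * a * C))))
    (hr : r ≤ 2 ^ (192 * a * C - a)) (hs : 16 * s < 2 ^ (a * a)) : ∃ x, M ≤ Φ x := by
  obtain ⟨x, hx⟩ := core_net ha hC hn (f := fun x => f (enc n x)) (by
    intro x
    show f (enc n x) ↔ _
    rw [hf, ofFn_enc (s := n % 5) (by omega),
      mem_LB _ _ (by rw [List.length_replicate]; exact Nat.mod_lt _ (by norm_num))])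
    (SepNet.enc hS) hr hs
  exact ⟨_, hx⟩

theorem params_bin (δ : ℝ) (hδ : 0 < δ) : ∃ c : ℝ, 0 < c ∧ ∃ n₀ : ℕ, ∀ n ≥ n₀, ∀ t r : ℕ,
    ((r : ℝ) + 1) * ((t : ℝ) + 1) ≤ (n : ℝ) ^ (1 - δ) →
    ∃ a C i : ℕ, 2 ≤ a ∧ 2 ≤ C ∧ (tmpl (2 * (32 * a)) (64 * a * C) (t + 1) i).length = n / 5 ∧
      r ≤ 2 ^ (192 * a * C - a) ∧
      16 * (n : ℝ) * ((n : ℝ) ^ (c * Real.log n) + 2) < 2 ^ (a * a) := by
  obtain ⟨c, hc, n₀, h⟩ := params (δ / 2) (by positivity)
  set Lm : ℝ := max (max 1 (6 / δ)) (max (40 / c) 3) with hLm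
  refine ⟨c / 8, by positivity, 10 * (n₀ + ⌈Real.exp Lm⌉₊ + 10), ?_⟩
  intro n hn t r hrt
  obtain ⟨n', hn'⟩ : ∃ n', n' = n / 5 := ⟨_, rfl⟩
  have h1 : n ≤ 10 * n' := by omega
  have hn'2 : ⌈Real.exp Lm⌉₊ ≤ n' := by omega
  have hnr : (n : ℝ) ≤ 10 * n' := by exact_mod_cast h1
  have hn'1 : Real.exp Lm ≤ n' := (Nat.le_ceil _).trans (by exact_mod_cast hn'2)
  have hn'pos : (0 : ℝ) < n' := (Real.exp_pos _).trans_le hn'1
  have hn10 : 10 ≤ n' := by omega
  have hn10r : (10 : ℝ) ≤ n' := by exact_mod_cast hn10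
  set l := Real.log n' with hl
  have hlL : Lm ≤ l := by
    rw [hl, Real.le_log_iff_exp_le hn'pos]
    exact hn'1
  have hl1 : 1 ≤ l := ((le_max_left _ _).trans (le_max_left _ _)).trans hlL
  have hl6 : 6 / δ ≤ l := ((le_max_right _ _).trans (le_max_left _ _)).trans hlL
  have hlc : 40 / c ≤ l := ((le_max_left _ _).trans (le_max_right _ _)).trans hlL
  have hl3 : 3 ≤ l := ((le_max_right _ _).trans (le_max_right _ _)).trans hlL
  have hnpos : (0 : ℝ) < n := by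
    have : 0 < n := by omega
    exact_mod_cast this
  have hlog10 : Real.log 10 ≤ 3 := by
    have h2 : Real.log 10 ≤ Real.log (Real.exp 3) := by
      apply Real.log_le_log (by norm_num)
      have h3 : Real.exp 3 = Real.exp 1 ^ 3 := by rw [← Real.exp_nat_mul]; norm_num
      have h4 : (2.7 : ℝ) < Real.exp 1 := by
        have := Real.exp_one_gt_d9
        linarith
      rw [h3]
      calc (10 : ℝ) ≤ 2.7 ^ 3 := by norm_num
        _ ≤ _ := pow_le_pow_left₀ (by norm_num) h4.le 3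
    rwa [Real.log_exp] at h2
  have hlogn : Real.log n ≤ l + 3 := by
    calc Real.log n ≤ Real.log (10 * n') := Real.log_le_log hnpos hnr
      _ = Real.log 10 + l := by rw [Real.log_mul (by norm_num) hn'pos.ne']
      _ ≤ l + 3 := by linarith
  have hlogn0 : 0 ≤ Real.log n := by
    apply Real.log_nonneg
    have : 1 ≤ n := by omega
    exact_mod_cast this
  have hδl : 6 ≤ δ * l := by
    rw [div_le_iff₀ hδ] at hl6
    linarith
  -- the condition for `n'`
  have h1n : (1 : ℝ) < n := by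
    have : 1 < n := by omega
    exact_mod_cast this
  have hδ1 : 0 ≤ 1 - δ := by
    by_contra hcon
    rw [not_le] at hcon
    have h1 : (n : ℝ) ^ (1 - δ) < 1 := Real.rpow_lt_one_of_one_lt_of_neg h1n hcon
    have h2 : (1 : ℝ) ≤ ((r : ℝ) + 1) * ((t : ℝ) + 1) := by
      have : (0 : ℝ) ≤ r := Nat.cast_nonneg r
      have : (0 : ℝ) ≤ t := Nat.cast_nonneg t
      nlinarith
    linarith
  have hcond : ((r : ℝ) + 1) * ((t : ℝ) + 1) ≤ (n' : ℝ) ^ (1 - δ / 2) := by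
    refine hrt.trans ?_
    rw [Real.rpow_def_of_pos hnpos, Real.rpow_def_of_pos hn'pos]
    refine Real.exp_le_exp.2 ?_
    rw [← hl]
    nlinarith
  obtain ⟨a, C, i, h2, h3, h4, h5, h6⟩ := h n' (by omega) t r hcond
  refine ⟨a, C, i, h2, h3, by rw [h4, hn'], h5, lt_of_le_of_lt ?_ h6⟩
  -- the size
  set x : ℝ := Real.exp (c / 2 * l ^ 2) with hx
  have hx20 : 20 ≤ x := by
    have h7 : 40 ≤ c * l := by
      rw [div_le_iff₀ hc] at hlc
      linarith
    have h8 : 20 ≤ c / 2 * l ^ 2 := by nlinarith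
    have := Real.add_one_le_exp (c / 2 * l ^ 2)
    linarith
  have h7 : (n : ℝ) ^ (c / 8 * Real.log n) ≤ x := by
    rw [Real.rpow_def_of_pos hnpos, hx]
    refine Real.exp_le_exp.2 ?_
    have h8 : Real.log n ≤ 2 * l := by linarith
    have h9 : Real.log n * Real.log n ≤ (2 * l) * (2 * l) :=
      mul_le_mul h8 h8 hlogn0 (by linarith)
    nlinarith
  have h8 : (n' : ℝ) ^ (c * l) = x * x := by
    rw [Real.rpow_def_of_pos hn'pos, ← hl, hx, ← Real.exp_add]
    congr 1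
    ring
  rw [h8]
  have h9 : 0 ≤ (n : ℝ) ^ (c / 8 * Real.log n) := by positivity
  calc 16 * (n : ℝ) * ((n : ℝ) ^ (c / 8 * Real.log n) + 2)
      ≤ 16 * (10 * n') * (x + 2) := by
        refine mul_le_mul (by linarith) (by linarith) (by linarith) (by positivity)
    _ = 16 * n' * (10 * (x + 2)) := by ring
    _ ≤ 16 * n' * (x * x + 2) := mul_le_mul_of_nonneg_left (by nlinarith) (by positivity)

end Pool.Agent.T9h97.CFL
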