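import Mathlib
import Pool.Agent.T9h97.CFL.BinC

/-!
# Programs with antitone oracles and with monotone advice
-/

set_option autoImplicit false

namespace Pool.Agent.T9h97.CFL

open Finset Pool.Agent.T9h47.MN

variable {Γ : Type} {n : ℕ}

/-- The condition of every edge depends on at most `r` letters (a natural number). -/
def ReadsN (P : Program Γ n) (r : ℕ) : Prop :=
  ∀ e, ∃ J : Finset (Fin n), J.card ≤ r ∧
    ∀ x y : Fin n → Γ, (∀ j ∈ J, x j = y j) → (P.guard e x ↔ P.guard e y)

/-- the network given by a program and a map to its inputs -/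
def toN {X : Type} (P : Program Γ n) (g : Set X → Fin n → Γ) : Net X where
  V := P.V
  E := P.E
  src := P.src
  dst := P.dst
  s := P.start
  t := P.final
  guard := fun e y => P.guard e (g y)

theorem toN_spec [PartialOrder Γ] {X : Type} (P : Program Γ n) (g : Set X → Fin n → Γ) {r : ℕ}
    (hm : P.Monotone) (hr : ReadsN P r)
    (hg : ∀ y y', y ⊆ y' → ∀ j, g y j ≤ g y' j)
    (hgd : ∀ j, ∃ I : Finset X, I.card ≤ 1 ∧ ∀ y y' : Set X, y ∩ I = y' ∩ I → g y j = g y' j) :
    (toN P g).Mono ∧ (∀ e, ∃ I : Finset X, I.card ≤ r ∧ DepOn ((toN P g).guard e) I) ∧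
      ∀ y, (toN P g).Reach y (toN P g).t ↔ P.Accepts (g y) := by
  classical
  refine ⟨fun e x y hxy hx => hm e _ _ (hg x y hxy) hx, ?_, fun y => Iff.rfl⟩
  intro e
  obtain ⟨J, hJ1, hJ2⟩ := hr e
  choose I hI1 hI2 using hgd
  refine ⟨J.biUnion I, ?_, ?_⟩
  · refine (card_biUnion_le_card_mul _ _ 1 fun j _ => hI1 j).trans ?_
    rw [mul_one]
    exact hJ1
  · intro x y hxy
    refine hJ2 _ _ fun j hj => hI2 j x y ?_
    have h1 : (I j : Set X) ⊆ (J.biUnion I : Finset X) := by
      intro q hq
      exact mem_coe.2 (mem_biUnion.2 ⟨j, hj, mem_coe.1 hq⟩)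
    have h2 : ∀ z : Set X, z ∩ (I j : Set X) = (z ∩ ((J.biUnion I : Finset X) : Set X)) ∩
        (I j : Set X) := by
      intro z
      rw [Set.inter_assoc, Set.inter_eq_self_of_subset_right h1]
    rw [h2 x, h2 y, hxy]

/-- Programs with antitone oracles have the separation property. -/
theorem sep_oracle [PartialOrder Γ] {t r : ℕ} (φ : Fin t → (Fin n → Γ) → Bool)
    (hφ : ∀ i, Antitone (φ i)) (P : Program Γ n)
    (G : P.E → (Fin n → Γ) → (Fin t → Bool) → Prop)
    (hG : ∀ e x, P.guard e x ↔ G e x (fun i => φ i x))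
    (hmono : ∀ e x y v w, x ≤ y → v ≤ w → G e x v → G e y w)
    (hloc : ∀ e, ∃ J : Finset (Fin n), J.card ≤ r ∧
      ∀ x y v, (∀ j ∈ J, x j = y j) → (G e x v ↔ G e y v)) (X : Type) :
    SepNet (fun x => P.Accepts x) (fun x => (univ.filter fun i : Fin t => φ i x = false).card)
      P.size r X := by
  classical
  intro g x0 NN PP h1 h2 h3 h4 h5
  set ν : Fin t → Bool := fun i => φ i x0 with hν
  have hle : ∀ z, (fun i => φ i (g z)) ≤ ν := fun z i => hφ i (h3 z)
  set Q : Program Γ n := ⟨P.V, P.E, P.fin, P.src, P.dst, P.start, P.final, fun e x => G e x ν⟩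
    with hQ
  have hQm : Q.Monotone := fun e x y hxy hx => hmono e x y ν ν hxy le_rfl hx
  have hQr : ReadsN Q r := by
    intro e
    obtain ⟨J, hJ1, hJ2⟩ := hloc e
    exact ⟨J, hJ1, fun x y hxy => hJ2 x y ν hxy⟩
  obtain ⟨s1, s2, s3⟩ := toN_spec Q g hQm hQr h1 h2
  refine ⟨toN Q g, P.fin, le_rfl, s1, s2, ?_, ?_⟩
  · intro z hz
    rw [s3]
    refine Relation.ReflTransGen.mono ?_ _ _ (h5 z hz)
    rintro u v ⟨e, he1, he2, he3⟩
    exact ⟨e, he1, he2, hmono e _ _ _ _ le_rfl (hle z) ((hG e _).1 he3)⟩
  · intro z hz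
    obtain ⟨h6, h7⟩ := h4 z hz
    have hall : (fun i => φ i (g z)) = ν := by
      funext i
      by_contra hne
      apply h7
      apply card_lt_card
      rw [ssubset_iff_of_subset]
      · refine ⟨i, ?_, ?_⟩
        · rw [mem_filter]
          refine ⟨mem_univ _, ?_⟩
          have h8 := hle z i
          cases hx : φ i (g z) with
          | false => rfl
          | true =>
            simp only [hx] at h8 hne
            exact absurd (le_antisymm h8 (Bool.le_true _)) hne
        · rw [mem_filter]
          rintro ⟨_, h8⟩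
          have h9 := hle z i
          have h10 : ν i = false := h8
          rw [h10] at h9 hne
          exact hne (le_antisymm h9 (Bool.false_le _))
      · intro j hj
        rw [mem_filter] at hj ⊢
        refine ⟨mem_univ _, ?_⟩
        have h9 := hle z j
        have h10 : ν j = false := hj.2
        rw [h10] at h9
        exact le_antisymm h9 (Bool.false_le _)
    rw [s3]
    intro hacc
    apply h6
    refine Relation.ReflTransGen.mono ?_ _ _ hacc
    rintro u v ⟨e, he1, he2, he3⟩
    refine ⟨e, he1, he2, (hG e _).2 ?_⟩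
    rw [hall]
    exact he3

/-- the disjunction of a family of programs -/
def cup {ι : Type} [Fintype ι] (F : ι → Program Γ n) : Program Γ n where
  V := Bool ⊕ (Σ i, (F i).V)
  E := (ι ⊕ ι) ⊕ (Σ i, (F i).E)
  fin :=
    have : ∀ i, Fintype (F i).E := fun i => (F i).fin
    inferInstance
  src := Sum.elim (Sum.elim (fun _ => Sum.inl false) (fun i => Sum.inr ⟨i, (F i).final⟩))
    (fun p => Sum.inr ⟨p.1, (F p.1).src p.2⟩)
  dst := Sum.elim (Sum.elim (fun i => Sum.inr ⟨i, (F i).start⟩) (fun _ => Sum.inl true))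
    (fun p => Sum.inr ⟨p.1, (F p.1).dst p.2⟩)
  start := Sum.inl false
  final := Sum.inl true
  guard := Sum.elim (fun _ _ => True) (fun p x => (F p.1).guard p.2 x)

theorem cup_size {ι : Type} [Fintype ι] (F : ι → Program Γ n) {s : ℕ}
    (hs : ∀ i, (F i).size ≤ s) : (cup F).size ≤ Fintype.card ι * (s + 2) := by
  have hfin : ∀ i, Fintype (F i).E := fun i => (F i).fin
  have h1 : (cup F).size = Fintype.card ι + Fintype.card ι + ∑ i, (F i).size := by
    have e : (cup F).size = Fintype.card ((ι ⊕ ι) ⊕ (Σ i, (F i).E)) := by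
      unfold Program.size
      congr 1
      exact Subsingleton.elim _ _
    rw [e, Fintype.card_sum, Fintype.card_sum, Fintype.card_sigma]
    congr 1
    refine sum_congr rfl fun i _ => ?_
    unfold Program.size
    congr 1
    exact Subsingleton.elim _ _
  rw [h1]
  have h2 : ∑ i, (F i).size ≤ ∑ _i : ι, s := sum_le_sum fun i _ => hs i
  rw [sum_const, card_univ, smul_eq_mul] at h2
  rw [mul_add]
  omega

theorem cup_monotone [PartialOrder Γ] {ι : Type} [Fintype ι] (F : ι → Program Γ n)
    (hF : ∀ i, (F i).Monotone) : (cup F).Monotone := by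
  rintro (e | ⟨i, e⟩) x y hxy hx
  · exact trivial
  · exact hF i e x y hxy hx

theorem cup_reads {ι : Type} [Fintype ι] (F : ι → Program Γ n) {r : ℕ}
    (hF : ∀ i, ReadsN (F i) r) : ReadsN (cup F) r := by
  rintro (e | ⟨i, e⟩)
  · exact ⟨∅, by simp, fun _ _ _ => Iff.rfl⟩
  · exact hF i e

theorem cup_accepts {ι : Type} [Fintype ι] (F : ι → Program Γ n) (x : Fin n → Γ) :
    (cup F).Accepts x ↔ ∃ i, (F i).Accepts x := by
  constructor
  · intro h
    have key : ∀ v : (cup F).V, Relation.ReflTransGen (fun u v => ∃ e, (cup F).src e = u ∧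
        (cup F).dst e = v ∧ (cup F).guard e x) (Sum.inl false) v →
        v = Sum.inl false ∨ (∃ i w, v = Sum.inr ⟨i, w⟩ ∧ Relation.ReflTransGen (fun u v =>
          ∃ e, (F i).src e = u ∧ (F i).dst e = v ∧ (F i).guard e x) (F i).start w) ∨
        ∃ i, (F i).Accepts x := by
      intro v hv
      induction hv with
      | refl => exact Or.inl rfl
      | tail _ hstep ih =>
        rcases ih with ih | ih | ih
        · obtain ⟨(⟨i⟩ | ⟨i⟩) | ⟨i, e⟩, h1, h2, h3⟩ := hstep
          · right; left
            exact ⟨i, (F i).start, h2.symm, Relation.ReflTransGen.refl⟩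
          · rw [ih] at h1
            exact absurd h1 (by simp [cup])
          · rw [ih] at h1
            exact absurd h1 (by simp [cup])
        · obtain ⟨k, w, hw, hreach⟩ := ih
          obtain ⟨(⟨i⟩ | ⟨i⟩) | ⟨i, e⟩, h1, h2, h3⟩ := hstep
          · rw [hw] at h1
            exact absurd h1 (by simp [cup])
          · right; right
            rw [hw] at h1
            have h4 : (⟨i, (F i).final⟩ : Σ i, (F i).V) = ⟨k, w⟩ := Sum.inr.inj h1
            obtain ⟨rfl, h5⟩ := Sigma.mk.inj_iff.1 h4
            exact ⟨i, by rw [← eq_of_heq h5] at hreach; exact hreach⟩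
          · right; left
            rw [hw] at h1
            have h4 : (⟨i, (F i).src e⟩ : Σ i, (F i).V) = ⟨k, w⟩ := Sum.inr.inj h1
            obtain ⟨rfl, h5⟩ := Sigma.mk.inj_iff.1 h4
            exact ⟨i, (F i).dst e, h2.symm, hreach.tail ⟨e, eq_of_heq h5, rfl, h3⟩⟩
        · exact Or.inr (Or.inr ih)
    rcases key _ h with h1 | ⟨i, w, h1, _⟩ | h1
    · exact absurd h1 (by simp [cup])
    · exact absurd h1 (by simp [cup])
    · exact h1
  · rintro ⟨i, hi⟩
    have key : ∀ w, Relation.ReflTransGen (fun u v =>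
        ∃ e, (F i).src e = u ∧ (F i).dst e = v ∧ (F i).guard e x) (F i).start w →
        Relation.ReflTransGen (fun u v => ∃ e, (cup F).src e = u ∧
        (cup F).dst e = v ∧ (cup F).guard e x) (Sum.inl false) (Sum.inr ⟨i, w⟩) := by
      intro w hw
      induction hw with
      | refl =>
        exact Relation.ReflTransGen.single ⟨Sum.inl (Sum.inl i), rfl, rfl, trivial⟩
      | tail _ hstep ih =>
        obtain ⟨e, h1, h2, h3⟩ := hstep
        refine ih.tail ⟨Sum.inr ⟨i, e⟩, ?_, ?_, h3⟩
        · show Sum.inr (⟨i, (F i).src e⟩ : Σ i, (F i).V) = _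
          rw [h1]
        · show Sum.inr (⟨i, (F i).dst e⟩ : Σ i, (F i).V) = _
          rw [h2]
    exact (key _ hi).tail ⟨Sum.inl (Sum.inr i), rfl, rfl, trivial⟩

open Classical in
/-- Programs with monotone advice have the separation property. -/
theorem sep_advice [PartialOrder Γ] {R r s : ℕ} (h : Fin R → Program Γ n)
    (D : (Fin R → Bool) → Program Γ n)
    (hh : ∀ i, (h i).Monotone ∧ ReadsN (h i) r ∧ (h i).size ≤ s)
    (hD : ∀ v, (D v).Monotone ∧ ReadsN (D v) r ∧ (D v).size ≤ s) (X : Type) :
    SepNet (fun x => (D fun i => decide ((h i).Accepts x)).Accepts x)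
      (fun x => (univ.filter fun i : Fin R => (h i).Accepts x).card) ((R + 1) * (s + 2)) r X := by
  intro g x0 NN PP h1 h2 h3 h4 h5
  have hmon : ∀ (P : Program Γ n), P.Monotone → ∀ x y : Fin n → Γ, (∀ j, x j ≤ y j) →
      P.Accepts x → P.Accepts y := by
    intro P hP x y hxy hx
    refine Relation.ReflTransGen.mono ?_ _ _ hx
    rintro u v ⟨e, he1, he2, he3⟩
    exact ⟨e, he1, he2, hP e x y hxy he3⟩
  set ν : Fin R → Bool := fun i => decide ((h i).Accepts x0) with hν
  set F : Option {i : Fin R // ν i = false} → Program Γ n := fun o =>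
    match o with
    | none => D ν
    | some i => h i.1 with hF
  have hFm : ∀ o, (F o).Monotone := by
    rintro (_ | i)
    · exact (hD ν).1
    · exact (hh i.1).1
  have hFr : ∀ o, ReadsN (F o) r := by
    rintro (_ | i)
    · exact (hD ν).2.1
    · exact (hh i.1).2.1
  have hFs : ∀ o, (F o).size ≤ s := by
    rintro (_ | i)
    · exact (hD ν).2.2
    · exact (hh i.1).2.2
  obtain ⟨s1, s2, s3⟩ := toN_spec (cup F) g (cup_monotone F hFm) (cup_reads F hFr) h1 h2
  refine ⟨toN (cup F) g, (cup F).fin, ?_, s1, s2, ?_, ?_⟩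
  · have h6 := cup_size F hFs
    refine le_trans (le_of_eq rfl) (h6.trans (Nat.mul_le_mul_right _ ?_))
    rw [Fintype.card_option]
    refine Nat.add_le_add_right ?_ 1
    exact (Fintype.card_subtype_le _).trans (by simp)
  · intro z hz
    rw [s3, cup_accepts]
    by_cases hall : (fun i => decide ((h i).Accepts (g z))) = ν
    · refine ⟨none, ?_⟩
      have h6 := h5 z hz
      simp only [hall] at h6
      exact h6
    · obtain ⟨i, hi⟩ : ∃ i, decide ((h i).Accepts (g z)) ≠ ν i := by
        by_contra hcon
        push Not at hcon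
        exact hall (funext hcon)
      have hνi : ν i = false := by
        cases hx : ν i with
        | false => rfl
        | true =>
          have h6 : (h i).Accepts x0 := of_decide_eq_true hx
          have h7 := hmon _ (hh i).1 _ _ (h3 z) h6
          exact absurd (by rw [hx]; exact decide_eq_true h7) hi
      refine ⟨some ⟨i, hνi⟩, ?_⟩
      rw [hνi] at hi
      show (h i).Accepts (g z)
      by_contra hcon
      exact hi (decide_eq_false hcon)
  · intro z hz
    obtain ⟨h6, h7⟩ := h4 z hz
    have hall : ∀ i, decide ((h i).Accepts (g z)) = ν i := by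
      intro i
      by_contra hne
      apply h7
      apply card_lt_card
      rw [ssubset_iff_of_subset]
      · refine ⟨i, ?_, ?_⟩
        · rw [mem_filter]
          refine ⟨mem_univ _, ?_⟩
          by_contra hcon
          have h8 : ν i = true := by
            cases hx : ν i with
            | true => rfl
            | false => rw [hx] at hne; exact absurd (decide_eq_false hcon) hne
          exact hcon (hmon _ (hh i).1 _ _ (h3 z) (of_decide_eq_true h8))
        · rw [mem_filter]
          rintro ⟨_, h8⟩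
          have h9 := hmon _ (hh i).1 _ _ (h3 z) h8
          exact hne (by rw [hν]; simp only [h8, h9])
      · intro j hj
        rw [mem_filter] at hj ⊢
        exact ⟨mem_univ _, hmon _ (hh j).1 _ _ (h3 z) hj.2⟩
    rw [s3, cup_accepts]
    rintro ⟨_ | i, hi⟩
    · apply h6
      have h8 : (fun i => decide ((h i).Accepts (g z))) = ν := funext hall
      simp only [h8]
      exact hi
    · have h8 := hall i.1
      rw [i.2] at h8
      exact of_decide_eq_false h8 hi

end Pool.Agent.T9h97.CFL
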