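import Mathlib
import Pool.Agent.T9h97.CFL.Core

/-!
# Conjunctions of many instances inside the language

A word which consists of many instances of the tree problem, and which is in the language if and
only if all the instances are positive. The stack has a marker at the bottom, and the block in
front of an instance has no option which works without choosing a label of the root.
-/

set_option autoImplicit false

namespace Pool.Agent.T9h97.CFL

open Finset Pool.Agent.T9h47.MN
open Ltr St

variable {h m : ℕ}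

/-- options of the block in front of an instance -/
noncomputable def allO (h m : ℕ) : List (TT h m × List Bool × List Bool) :=
  (univ : Finset (Lb m)).toList.map (fun c => (Sum.inl yes, mk false, lb c ++ mk false))

theorem allO_W : WO (allO h m) := by
  intro o ho
  rw [allO, List.mem_map] at ho
  obtain ⟨c, _, rfl⟩ := ho
  exact Or.inl rfl

theorem run_all' (x : Set (ℕ × Var h (Lb m))) (σ : List Bool) (q : St) (τ : List Bool) :
    Rn B σ ((blk (allO h m)).map (evv x)) q τ ↔
      q = B ∧ ∃ (c : Lb m) (ρ : List Bool), σ = mk false ++ ρ ∧ τ = lb c ++ (mk false ++ ρ) := by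
  rw [run_blk allO_W, allO]
  apply and_congr_right
  intro _
  simp only [List.mem_map, mem_toList, mem_univ, true_and]
  constructor
  · rintro ⟨o, ⟨c, rfl⟩, -, ρ, h1, h2⟩
    simp only [List.append_assoc] at h2
    exact ⟨c, ρ, h1, h2⟩
  · rintro ⟨c, ρ, h1, h2⟩
    exact ⟨_, ⟨c, rfl⟩, rfl, ρ, h1, by simp only [List.append_assoc]; exact h2⟩

/-- whatever the variables are, an instance either skips or pops one label -/
theorem tre_any (β : ℕ) (x : Set (ℕ × Var h (Lb m))) :
    ∀ (i : ℕ) (v : Nd h) (σ τ : List Bool) (q : St),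
    Rn B σ ((tre β i v).map (evv x)) q τ → q = B ∧ (Sk σ τ ∨ ∃ c : Lb m, σ = lb c ++ τ) := by
  intro i
  induction i with
  | zero =>
    intro v σ τ q h1
    exact (run_leaf' _ _ _ _).1 h1
  | succ i ih =>
    intro v σ τ q h1
    rw [tre, List.map_append, List.map_append, Rn_append] at h1
    obtain ⟨r, ρ, h2, h3⟩ := h1
    obtain ⟨rfl, h4⟩ := (run_node' _ _ _ _ _ _).1 h2
    rw [Rn_append] at h3
    obtain ⟨r', ρ'', h7, h8⟩ := h3
    obtain ⟨rfl, h9⟩ := ih (lc v) _ _ _ h7
    obtain ⟨h12, h13⟩ := ih (rc v) _ _ _ h8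
    refine ⟨h12, ?_⟩
    rcases h4 with ⟨j, ρ', rfl, rfl⟩ | ⟨a, b, c, ρ', h4, h5, h6⟩
    · have h10 : ρ'' = mk j ++ ρ' := by
        rcases h9 with ⟨_, _, _, h9⟩ | ⟨c, h9⟩
        · exact h9
        · exact absurd h9 (fun h => mk_ne_lb h)
      subst h10
      rcases h13 with ⟨_, _, _, h13⟩ | ⟨c, h13⟩
      · exact Or.inl ⟨j, ρ', rfl, h13⟩
      · exact absurd h13 (fun h => mk_ne_lb h)
    · right
      rw [h6] at h9
      have h11 : ρ'' = lb b ++ ρ' := by
        rcases h9 with ⟨j, ρ₁, h9, _⟩ | ⟨a', h9⟩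
        · exact absurd h9.symm (fun h => mk_ne_lb h)
        · obtain ⟨rfl, h11⟩ := lb_inj h9
          exact h11.symm
      rw [h11] at h13
      have h15 : τ = ρ' := by
        rcases h13 with ⟨j, ρ₁, h13, _⟩ | ⟨b', h13⟩
        · exact absurd h13.symm (fun h => mk_ne_lb h)
        · obtain ⟨rfl, h15⟩ := lb_inj h13
          exact h15.symm
      exact ⟨c, by rw [h5, h15]⟩

/-- one instance which must be positive -/
noncomputable def oneA (h m β : ℕ) : List (TT h m) := blk (allO h m) ++ tre β h (root h)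

/-- the instances `0, ..., M - 1` -/
noncomputable def manyA (h m : ℕ) : ℕ → List (TT h m)
  | 0 => []
  | M + 1 => manyA h m M ++ oneA h m M

theorem oneA_pos (β : ℕ) (x : Set (ℕ × Var h (Lb m))) (l : Nd h → Lb m)
    (hx : ∀ q ∈ posT l, (β, q) ∈ x) :
    Rn B (mk false) ((oneA h m β).map (evv x)) B (mk false) := by
  rw [oneA, List.map_append, Rn_append]
  refine ⟨B, lb (l (root h)) ++ mk false, (run_all' _ _ _ _).2 ⟨rfl,
    l (root h), [], by simp, by simp⟩, ?_⟩
  exact tre_pos β x l hx h (root h) (mk false) le_rfl (root_lt h)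

theorem manyA_pos (x : Set (ℕ × Var h (Lb m))) (M : ℕ)
    (hx : ∀ β < M, ∃ l : Nd h → Lb m, ∀ q ∈ posT l, (β, q) ∈ x) :
    Rn B (mk false) ((manyA h m M).map (evv x)) B (mk false) := by
  induction M with
  | zero => exact ⟨rfl, rfl⟩
  | succ M ih =>
    rw [manyA, List.map_append, Rn_append]
    obtain ⟨l, hl⟩ := hx M (by omega)
    exact ⟨B, mk false, ih (fun β hβ => hx β (by omega)), oneA_pos _ _ l hl⟩

theorem oneA_any (β : ℕ) (x : Set (ℕ × Var h (Lb m))) (q : St) (τ : List Bool)
    (hr : Rn B (mk false) ((oneA h m β).map (evv x)) q τ) : q = B ∧ τ = mk false := by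
  rw [oneA, List.map_append, Rn_append] at hr
  obtain ⟨r, ρ, h1, h2⟩ := hr
  obtain ⟨rfl, c, ρ', h3, h5⟩ := (run_all' _ _ _ _).1 h1
  obtain ⟨rfl, h4⟩ := tre_any β x h (root h) _ _ _ h2
  refine ⟨rfl, ?_⟩
  have h6 : ρ' = [] := by simpa [mk] using h3
  subst h6
  rw [h5] at h4
  rcases h4 with ⟨_, _, h4, _⟩ | ⟨c', h4⟩
  · exact absurd h4.symm (fun h => mk_ne_lb h)
  · obtain ⟨_, h7⟩ := lb_inj h4
    rw [← h7, List.append_nil]

theorem oneA_neg (hh : 1 ≤ h) (β : ℕ) (x : Set (ℕ × Var h (Lb m)))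
    (hx : ∃ χ : Nd h × Lb m → Bool, ∀ q, (β, q) ∈ x → q ∈ negT χ) (q : St) (τ : List Bool) :
    ¬ Rn B (mk false) ((oneA h m β).map (evv x)) q τ := by
  intro hr
  obtain ⟨χ, hχ⟩ := hx
  rw [oneA, List.map_append, Rn_append] at hr
  obtain ⟨r, ρ, h1, h2⟩ := hr
  obtain ⟨rfl, c, ρ', h3, h5⟩ := (run_all' _ _ _ _).1 h1
  have h6 : (root h).val = 1 := rfl
  obtain ⟨rfl, h4⟩ := tre_neg hh β x χ hχ h (root h) _ _ _ (by rw [h6]) (by rw [h6]; omega)
    (root_lt h) h2
  rw [h5] at h4
  rcases h4 with ⟨_, _, h4, _⟩ | ⟨c', h4, h7⟩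
  · exact absurd h4.symm (fun h => mk_ne_lb h)
  · have h9 : eff χ (root h) c' = true := by unfold eff; rw [if_pos rfl]
    rw [h7] at h9
    exact absurd h9 (by decide)

theorem manyA_any (x : Set (ℕ × Var h (Lb m))) (M : ℕ) (q : St) (τ : List Bool)
    (hr : Rn B (mk false) ((manyA h m M).map (evv x)) q τ) : q = B ∧ τ = mk false := by
  induction M generalizing q τ with
  | zero =>
    obtain ⟨rfl, rfl⟩ := hr
    exact ⟨rfl, rfl⟩
  | succ M ih =>
    rw [manyA, List.map_append, Rn_append] at hr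
    obtain ⟨r, ρ, h1, h2⟩ := hr
    obtain ⟨rfl, rfl⟩ := ih _ _ h1
    exact oneA_any M x q τ h2

theorem manyA_neg (hh : 1 ≤ h) (x : Set (ℕ × Var h (Lb m))) (M : ℕ)
    (hx : ∃ β < M, ∃ χ : Nd h × Lb m → Bool, ∀ q, (β, q) ∈ x → q ∈ negT χ) (q : St)
    (τ : List Bool) : ¬ Rn B (mk false) ((manyA h m M).map (evv x)) q τ := by
  induction M generalizing q τ with
  | zero => obtain ⟨β, hβ, _⟩ := hx; omega
  | succ M ih =>
    intro hr
    rw [manyA, List.map_append, Rn_append] at hr
    obtain ⟨r, ρ, h1, h2⟩ := hr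
    obtain ⟨β, hβ, h3⟩ := hx
    rcases Nat.lt_succ_iff_lt_or_eq.1 hβ with h4 | h4
    · exact ih ⟨β, h4, h3⟩ _ _ h1
    · subst h4
      obtain ⟨rfl, rfl⟩ := manyA_any x _ _ _ h1
      exact oneA_neg hh _ x h3 _ _ h2

/-- the options of the last block -/
def finA (h m : ℕ) : List (TT h m × List Bool × List Bool) := [(Sum.inl yes, mk false, [])]

/-- the whole template, with padding -/
noncomputable def tmplA (h m M i : ℕ) : List (TT h m) :=
  blk (iniO h m) ++ (manyA h m M ++ (blk (finA h m) ++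
    (Sum.inl yes :: (List.replicate (i + 10 * M) (Sum.inl no) ++ [Sum.inl sep]))))

theorem run_finA (x : Set (ℕ × Var h (Lb m))) (σ : List Bool) (q : St) (τ : List Bool) :
    Rn B σ ((blk (finA h m)).map (evv x)) q τ ↔ q = B ∧ σ = mk false ++ τ := by
  rw [run_blk (by
    intro o ho
    simp only [finA, List.mem_singleton] at ho
    subst ho
    exact Or.inl rfl)]
  apply and_congr_right
  intro _
  simp only [finA, List.mem_singleton]
  constructor
  · rintro ⟨o, rfl, -, ρ, h1, h2⟩
    simp only [List.nil_append] at h2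
    rw [h2]
    exact h1
  · intro h1
    exact ⟨_, rfl, rfl, τ, h1, rfl⟩

theorem tmplA_pos (x : Set (ℕ × Var h (Lb m))) (M i : ℕ)
    (hx : ∀ β < M, ∃ l : Nd h → Lb m, ∀ q ∈ posT l, (β, q) ∈ x) :
    (tmplA h m M i).map (evv x) ∈ Lg := by
  show Rn B [] _ B []
  unfold tmplA
  rw [List.map_append, List.map_append, List.map_append, Rn_append]
  refine ⟨B, mk false, (run_ini _ _ _ _).2 ⟨rfl, by simp⟩, ?_⟩
  rw [Rn_append]
  refine ⟨B, mk false, manyA_pos x M hx, ?_⟩
  rw [Rn_append]
  refine ⟨B, [], (run_finA _ _ _ _).2 ⟨rfl, by simp⟩, ?_⟩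
  rw [pad_map']
  exact run_pad _ []

theorem tmplA_neg (hh : 1 ≤ h) (x : Set (ℕ × Var h (Lb m))) (M i : ℕ)
    (hx : ∃ β < M, ∃ χ : Nd h × Lb m → Bool, ∀ q, (β, q) ∈ x → q ∈ negT χ) :
    (tmplA h m M i).map (evv x) ∉ Lg := by
  intro h0
  have h1 : Rn B [] ((tmplA h m M i).map (evv x)) B [] := h0
  unfold tmplA at h1
  rw [List.map_append, List.map_append, List.map_append, Rn_append] at h1
  obtain ⟨r, ρ, h2, h3⟩ := h1
  obtain ⟨rfl, h4⟩ := (run_ini _ _ _ _).1 h2
  rw [List.append_nil] at h4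
  subst h4
  rw [Rn_append] at h3
  obtain ⟨r', ρ', h5, h6⟩ := h3
  exact manyA_neg hh x M hx _ _ h5

theorem all_length : (blk (allO h m)).length = 2 ^ m * (m + 6) + 1 := by
  rw [blk_length, allO, List.map_map]
  have : ((univ : Finset (Lb m)).toList.map ((fun o : TT h m × List Bool × List Bool =>
      1 + (o.2.1.length + o.2.2.length)) ∘ fun c => (Sum.inl yes, mk false, lb c ++ mk false))) =
      (univ : Finset (Lb m)).toList.map (fun _ => m + 6) := by
    refine List.map_congr_left fun c _ => ?_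
    simp [lb_length, mk_length]
    ring
  rw [this, List.map_const', List.sum_replicate, length_toList, card_univ]
  simp

theorem manyA_length (h m M : ℕ) : (manyA h m M).length + 10 * M = M * len1 h m := by
  induction M with
  | zero => simp [manyA]
  | succ M ih =>
    have e : (M + 1) * len1 h m = M * len1 h m + len1 h m := by ring
    rw [manyA, List.length_append, oneA, List.length_append, all_length, tre_length, e, ← ih, len1]
    ring

theorem finA_length : (blk (finA h m)).length = 4 := by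
  rw [blk_length]
  simp [finA, mk_length]

theorem tmplA_length (h m M i : ℕ) : (tmplA h m M i).length = (tmpl h m M i).length := by
  rw [tmpl_length]
  simp only [tmplA, List.length_append, List.length_cons, List.length_replicate,
    List.length_nil, ini_length, finA_length]
  have := manyA_length h m M
  omega

end Pool.Agent.T9h97.CFL
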