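import Mathlib
import Pool.Agent.T9h97.CFL.AndT
import Pool.Agent.T9h97.CFL.Apply

/-!
# Unions and intersections of many programs
-/

set_option autoImplicit false

namespace Pool.Agent.T9h97.CFL

open Finset Pool.Agent.T9h47.MN
open Ltr St

/-- Dense sets are hit by few points. -/
theorem hit {W Z : Type} [DecidableEq W] [DecidableEq Z] (A : Finset W) (S : Z → Finset W) :
    ∀ (q : ℕ) (Zs : Finset Z), Zs.card < 2 ^ q →
      (∀ z ∈ Zs, S z ⊆ A ∧ 0 < (S z).card ∧ A.card ≤ 2 * (S z).card) →
      ∃ T : Finset W, T.card ≤ q ∧ T ⊆ A ∧ ∀ z ∈ Zs, ∃ w ∈ T, w ∈ S z := by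
  intro q
  induction q with
  | zero =>
    intro Zs hZ _
    rw [pow_zero, Nat.lt_one_iff, card_eq_zero] at hZ
    subst hZ
    exact ⟨∅, by simp, by simp, by simp⟩
  | succ q ih =>
    intro Zs hZ hS
    rcases Zs.eq_empty_or_nonempty with h0 | ⟨z0, hz0⟩
    · subst h0
      exact ⟨∅, by simp, by simp, by simp⟩
    have hA : A.Nonempty := by
      obtain ⟨w, hw⟩ := card_pos.1 (hS z0 hz0).2.1
      exact ⟨w, (hS z0 hz0).1 hw⟩
    -- a point in at least half of the sets
    obtain ⟨w, hw, hwc⟩ : ∃ w ∈ A, Zs.card ≤ 2 * (Zs.filter fun z => w ∈ S z).card := by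
      by_contra hcon
      push Not at hcon
      have h1 : ∑ w ∈ A, 2 * (Zs.filter fun z => w ∈ S z).card < ∑ _w ∈ A, Zs.card :=
        sum_lt_sum_of_nonempty hA hcon
      have h2 : ∑ w ∈ A, (Zs.filter fun z => w ∈ S z).card = ∑ z ∈ Zs, (S z).card := by
        simp only [card_filter]
        rw [sum_comm]
        refine sum_congr rfl fun z hz => ?_
        rw [← card_filter]
        congr 1
        ext w
        rw [mem_filter]
        exact ⟨fun h => h.2, fun h => ⟨(hS z hz).1 h, h⟩⟩
      have h3 : ∑ _z ∈ Zs, A.card ≤ ∑ z ∈ Zs, 2 * (S z).card :=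
        sum_le_sum fun z hz => (hS z hz).2.2
      rw [← mul_sum, h2] at h1
      rw [← mul_sum] at h3
      rw [sum_const, smul_eq_mul] at h1 h3
      rw [mul_comm] at h3
      omega
    obtain ⟨T, hT1, hT2, hT3⟩ := ih (Zs.filter fun z => w ∉ S z) (by
      have h4 := card_filter_add_card_filter_not (s := Zs) (fun z => w ∈ S z)
      rw [pow_succ] at hZ
      omega) (fun z hz => hS z (mem_filter.1 hz).1)
    refine ⟨insert w T, (card_insert_le _ _).trans (by omega), insert_subset hw hT2, ?_⟩
    intro z hz
    by_cases h5 : w ∈ S z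
    · exact ⟨w, mem_insert_self _ _, h5⟩
    · obtain ⟨w', h6, h7⟩ := hT3 z (mem_filter.2 ⟨hz, h5⟩)
      exact ⟨w', mem_insert_of_mem h6, h7⟩

section cap

variable {Γ : Type} {n : ℕ}

/-- one program after another -/
def cap2 (P Q : Program Γ n) : Program Γ n where
  V := P.V ⊕ Q.V
  E := Option (P.E ⊕ Q.E)
  fin :=
    have : Fintype P.E := P.fin
    have : Fintype Q.E := Q.fin
    inferInstance
  src := fun e => match e with
    | none => Sum.inl P.final
    | some (Sum.inl e) => Sum.inl (P.src e)
    | some (Sum.inr e) => Sum.inr (Q.src e)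
  dst := fun e => match e with
    | none => Sum.inr Q.start
    | some (Sum.inl e) => Sum.inl (P.dst e)
    | some (Sum.inr e) => Sum.inr (Q.dst e)
  start := Sum.inl P.start
  final := Sum.inr Q.final
  guard := fun e => match e with
    | none => fun _ => True
    | some (Sum.inl e) => P.guard e
    | some (Sum.inr e) => Q.guard e

theorem cap2_size (P Q : Program Γ n) : (cap2 P Q).size = P.size + Q.size + 1 := by
  have h1 : Fintype P.E := P.fin
  have h2 : Fintype Q.E := Q.fin
  have e : (cap2 P Q).size = Fintype.card (Option (P.E ⊕ Q.E)) := by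
    unfold Program.size
    congr 1
    exact Subsingleton.elim _ _
  rw [e, Fintype.card_option, Fintype.card_sum]
  unfold Program.size
  congr 2
  · congr 1
    exact Subsingleton.elim _ _
  · congr 1
    exact Subsingleton.elim _ _

theorem cap2_accepts (P Q : Program Γ n) (x : Fin n → Γ) :
    (cap2 P Q).Accepts x ↔ P.Accepts x ∧ Q.Accepts x := by
  constructor
  · intro h
    have key : ∀ v : (cap2 P Q).V, Relation.ReflTransGen (fun u v => ∃ e, (cap2 P Q).src e = u ∧
        (cap2 P Q).dst e = v ∧ (cap2 P Q).guard e x) (Sum.inl P.start) v →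
        (∃ w, v = Sum.inl w ∧ Relation.ReflTransGen (fun u v =>
          ∃ e, P.src e = u ∧ P.dst e = v ∧ P.guard e x) P.start w) ∨
        (∃ w, v = Sum.inr w ∧ P.Accepts x ∧ Relation.ReflTransGen (fun u v =>
          ∃ e, Q.src e = u ∧ Q.dst e = v ∧ Q.guard e x) Q.start w) := by
      intro v hv
      induction hv with
      | refl => exact Or.inl ⟨P.start, rfl, Relation.ReflTransGen.refl⟩
      | tail _ hstep ih =>
        rcases ih with ⟨w, hw, hreach⟩ | ⟨w, hw, hP, hreach⟩
        · obtain ⟨(_ | (e | e)), h1, h2, h3⟩ := hstep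
          · rw [hw] at h1
            have h4 : P.final = w := Sum.inl.inj h1
            right
            exact ⟨Q.start, h2.symm, by rw [← h4] at hreach; exact hreach,
              Relation.ReflTransGen.refl⟩
          · rw [hw] at h1
            have h4 : P.src e = w := Sum.inl.inj h1
            left
            exact ⟨P.dst e, h2.symm, hreach.tail ⟨e, h4, rfl, h3⟩⟩
          · rw [hw] at h1
            exact absurd h1 (by simp [cap2])
        · obtain ⟨(_ | (e | e)), h1, h2, h3⟩ := hstep
          · rw [hw] at h1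
            exact absurd h1 (by simp [cap2])
          · rw [hw] at h1
            exact absurd h1 (by simp [cap2])
          · rw [hw] at h1
            have h4 : Q.src e = w := Sum.inr.inj h1
            right
            exact ⟨Q.dst e, h2.symm, hP, hreach.tail ⟨e, h4, rfl, h3⟩⟩
    rcases key _ h with ⟨w, h1, _⟩ | ⟨w, h1, h2, h3⟩
    · exact absurd h1 (by simp [cap2])
    · have h4 : Q.final = w := Sum.inr.inj h1
      rw [← h4] at h3
      exact ⟨h2, h3⟩
  · rintro ⟨hP, hQ⟩
    have k1 : ∀ w, Relation.ReflTransGen (fun u v =>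
        ∃ e, P.src e = u ∧ P.dst e = v ∧ P.guard e x) P.start w →
        Relation.ReflTransGen (fun u v => ∃ e, (cap2 P Q).src e = u ∧
        (cap2 P Q).dst e = v ∧ (cap2 P Q).guard e x) (Sum.inl P.start) (Sum.inl w) := by
      intro w hw
      induction hw with
      | refl => exact Relation.ReflTransGen.refl
      | tail _ hstep ih =>
        obtain ⟨e, h1, h2, h3⟩ := hstep
        refine ih.tail ⟨some (Sum.inl e), ?_, ?_, h3⟩
        · show Sum.inl (P.src e) = _
          rw [h1]
        · show Sum.inl (P.dst e) = _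
          rw [h2]
    have k2 : ∀ w, Relation.ReflTransGen (fun u v =>
        ∃ e, Q.src e = u ∧ Q.dst e = v ∧ Q.guard e x) Q.start w →
        Relation.ReflTransGen (fun u v => ∃ e, (cap2 P Q).src e = u ∧
        (cap2 P Q).dst e = v ∧ (cap2 P Q).guard e x) (Sum.inl P.start) (Sum.inr w) := by
      intro w hw
      induction hw with
      | refl => exact (k1 _ hP).tail ⟨none, rfl, rfl, trivial⟩
      | tail _ hstep ih =>
        obtain ⟨e, h1, h2, h3⟩ := hstep
        refine ih.tail ⟨some (Sum.inr e), ?_, ?_, h3⟩
        · show Sum.inr (Q.src e) = _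
          rw [h1]
        · show Sum.inr (Q.dst e) = _
          rw [h2]
    exact k2 _ hQ

/-- the conjunction of a list of programs -/
def capL : List (Program Γ n) → Program Γ n
  | [] => ⟨Unit, Empty, inferInstance, Empty.elim, Empty.elim, (), (), fun _ _ => True⟩
  | P :: l => cap2 P (capL l)

theorem capL_size {s : ℕ} : ∀ (l : List (Program Γ n)), (∀ P ∈ l, P.size ≤ s) →
    (capL l).size ≤ l.length * (s + 1) := by
  intro l
  induction l with
  | nil =>
    intro _
    simp [capL, Program.size]
  | cons P l ih =>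
    intro hl
    have h1 := ih (fun Q hQ => hl Q (List.mem_cons_of_mem _ hQ))
    have h2 := hl P List.mem_cons_self
    rw [capL, cap2_size, List.length_cons]
    have e : (l.length + 1) * (s + 1) = l.length * (s + 1) + (s + 1) := by ring
    omega

theorem capL_accepts (x : Fin n → Γ) : ∀ (l : List (Program Γ n)),
    (capL l).Accepts x ↔ ∀ P ∈ l, P.Accepts x := by
  intro l
  induction l with
  | nil =>
    refine ⟨fun _ P hP => absurd hP List.not_mem_nil, fun _ => Relation.ReflTransGen.refl⟩
  | cons P l ih => rw [capL, cap2_accepts, ih, List.forall_mem_cons]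

theorem capL_monotone [PartialOrder Γ] : ∀ (l : List (Program Γ n)), (∀ P ∈ l, P.Monotone) →
    (capL l).Monotone := by
  intro l
  induction l with
  | nil => rintro _ e; exact e.elim
  | cons P l ih =>
    rintro hl (_ | (e | e)) x y hxy hx
    · exact trivial
    · exact hl P List.mem_cons_self e x y hxy hx
    · exact ih (fun Q hQ => hl Q (List.mem_cons_of_mem _ hQ)) e x y hxy hx

theorem capL_reads {r : ℕ} : ∀ (l : List (Program Γ n)), (∀ P ∈ l, ReadsN P r) →
    ReadsN (capL l) r := by
  intro l
  induction l with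
  | nil => rintro _ e; exact e.elim
  | cons P l ih =>
    rintro hl (_ | (e | e))
    · exact ⟨∅, by simp, fun _ _ _ => Iff.rfl⟩
    · exact hl P List.mem_cons_self e
    · exact ih (fun Q hQ => hl Q (List.mem_cons_of_mem _ hQ)) e

end cap

end Pool.Agent.T9h97.CFL
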