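import Mathlib
import Pool.Agent.T9h97.CFL.Wit

/-!
# Unions and intersections of many programs: the core
-/

set_option autoImplicit false

namespace Pool.Agent.T9h97.CFL

open Finset Pool.Agent.T9h47.MN
open Ltr St

variable {h m M i n : ℕ}

/-- the word given by the instances -/
noncomputable def asmG (T : List (TT h m)) {n' : ℕ} (hn : T.length = n')
    (w : Fin M → Set (Var h (Lb m))) : Fin n' → Ltr :=
  fun j => evv (un w) (T.get (j.cast hn.symm))

theorem ofFn_asmG (T : List (TT h m)) {n' : ℕ} (hn : T.length = n')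
    (w : Fin M → Set (Var h (Lb m))) : List.ofFn (asmG T hn w) = T.map (evv (un w)) := by
  subst hn
  unfold asmG
  apply List.ext_get
  · simp
  · intro k h1 h2
    simp

theorem asmG_mono (T : List (TT h m)) {n' : ℕ} (hn : T.length = n')
    {w w' : Fin M → Set (Var h (Lb m))} (hw : ∀ β, w β ⊆ w' β) (j : Fin n') :
    asmG T hn w j ≤ asmG T hn w' j := by
  apply evv_mono
  rintro p ⟨hp, h1⟩
  exact ⟨hp, hw _ h1⟩

open Classical in
/-- the letters depend on at most one variable of the block -/
theorem asmG_dep (T : List (TT h m)) {n' : ℕ} (hn : T.length = n')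
    (w : Fin M → Set (Var h (Lb m))) (β : Fin M)
    (j : Fin n') : ∃ I : Finset (Var h (Lb m)), I.card ≤ 1 ∧ ∀ y y' : Set (Var h (Lb m)),
      y ∩ I = y' ∩ I →
      asmG T hn (Function.update w β y) j = asmG T hn (Function.update w β y') j := by
  cases hc : T.get (j.cast hn.symm) with
  | inl c =>
    refine ⟨∅, by simp, fun y y' _ => ?_⟩
    unfold asmG
    rw [hc]
    rfl
  | inr p =>
    by_cases hp : p.1 = β.1
    · refine ⟨{p.2}, by simp, fun y y' hyy => ?_⟩
      unfold asmG
      rw [hc]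
      have h1 : p.2 ∈ y ↔ p.2 ∈ y' := by
        have h3 := congrArg (fun S : Set (Var h (Lb m)) => p.2 ∈ S) hyy
        simpa using h3
      have h2 : ∀ y : Set (Var h (Lb m)), p ∈ un (Function.update w β y) ↔ p.2 ∈ y := by
        intro y
        unfold un
        constructor
        · rintro ⟨hpM, h3⟩
          have : (⟨p.1, hpM⟩ : Fin M) = β := Fin.ext hp
          rw [this, Function.update_self] at h3
          exact h3
        · intro h3
          refine ⟨by rw [hp]; exact β.2, ?_⟩
          have : (⟨p.1, by rw [hp]; exact β.2⟩ : Fin M) = β := Fin.ext hp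
          rw [this, Function.update_self]
          exact h3
      unfold evv
      simp only [h2, h1]
    · refine ⟨∅, by simp, fun y y' _ => ?_⟩
      unfold asmG
      rw [hc]
      have h2 : ∀ y : Set (Var h (Lb m)), p ∈ un (Function.update w β y) ↔ p ∈ un w := by
        intro y
        unfold un
        constructor
        · rintro ⟨hpM, h3⟩
          have : (⟨p.1, hpM⟩ : Fin M) ≠ β := fun h => hp (congrArg Fin.val h)
          rw [Function.update_of_ne this] at h3
          exact ⟨hpM, h3⟩
        · rintro ⟨hpM, h3⟩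
          have : (⟨p.1, hpM⟩ : Fin M) ≠ β := fun h => hp (congrArg Fin.val h)
          exact ⟨hpM, by rw [Function.update_of_ne this]; exact h3⟩
      unfold evv
      simp only [h2]

/-- the binary word given by the instances -/
noncomputable def binG (T : List (TT h m)) (n : ℕ) (hn : T.length = n / 5)
    (w : Fin M → Set (Var h (Lb m))) : Fin n → Bool := enc n (asmG T hn w)

theorem binG_mem (T : List (TT h m)) (n : ℕ) (hn : T.length = n / 5)
    (w : Fin M → Set (Var h (Lb m))) :
    List.ofFn (binG T n hn w) ∈ LB ↔ T.map (evv (un w)) ∈ Lg := by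
  unfold binG
  rw [ofFn_enc (s := n % 5) (by omega),
    mem_LB _ _ (by rw [List.length_replicate]; exact Nat.mod_lt _ (by norm_num)), ofFn_asmG]

theorem binG_mono (T : List (TT h m)) (n : ℕ) (hn : T.length = n / 5)
    {w w' : Fin M → Set (Var h (Lb m))} (hw : ∀ β, w β ⊆ w' β) (j : Fin n) :
    binG T n hn w j ≤ binG T n hn w' j :=
  enc_mono n (asmG_mono T hn hw) j

open Classical in
theorem binG_dep (T : List (TT h m)) (n : ℕ) (hn : T.length = n / 5)
    (w : Fin M → Set (Var h (Lb m))) (β : Fin M)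
    (j : Fin n) : ∃ I : Finset (Var h (Lb m)), I.card ≤ 1 ∧ ∀ y y' : Set (Var h (Lb m)),
      y ∩ I = y' ∩ I →
      binG T n hn (Function.update w β y) j = binG T n hn (Function.update w β y') j := by
  rcases enc_dep (n' := n / 5) j with ⟨k, hk⟩ | hk
  · obtain ⟨I, hI1, hI2⟩ := asmG_dep T hn w β k
    exact ⟨I, hI1, fun y y' hyy => hk _ _ (hI2 y y' hyy)⟩
  · exact ⟨∅, by simp, fun y y' _ => hk _ _⟩

/-- one program does not separate the positive from the negative tests of one instance -/
theorem one_prog {a C : ℕ} (ha : 2 ≤ a) (hC : 2 ≤ C) (P : Program Bool n) {r s : ℕ}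
    (h1 : P.Monotone) (h2 : ReadsN P r) (h3 : P.size ≤ s) (hr : r ≤ 2 ^ (192 * a * C - a))
    (hs : 16 * s < 2 ^ (a * a))
    (g : Set (Var (2 * (32 * a)) (Lb (64 * a * C))) → Fin n → Bool)
    (hg : ∀ y y', y ⊆ y' → ∀ j, g y j ≤ g y' j)
    (hgd : ∀ j, ∃ I : Finset (Var (2 * (32 * a)) (Lb (64 * a * C))), I.card ≤ 1 ∧
      ∀ y y' : Set (Var (2 * (32 * a)) (Lb (64 * a * C))), y ∩ I = y' ∩ I → g y j = g y' j)
    (hpos : ∀ l : Nd (2 * (32 * a)) → Lb (64 * a * C), P.Accepts (g (posT l)))
    (hneg : ∀ χ, ¬ P.Accepts (g (negT χ))) : False := by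
  obtain ⟨s1, s2, s3⟩ := toN_spec P g h1 h2 hg hgd
  have hfin : Fintype (toN P g).E := P.fin
  have h4 := @lower_net a C ha hC (toN P g) P.fin s1 (fun e => by
    obtain ⟨I, hI1, hI2⟩ := s2 e
    exact ⟨I, hI1.trans hr, hI2⟩) (fun l => (s3 _).2 (hpos l)) (fun χ => fun h => hneg χ ((s3 _).1 h))
  have h5 : @Fintype.card (toN P g).E P.fin = P.size := rfl
  rw [h5] at h4
  omega

theorem acc_mono {P : Program Bool n} (hP : P.Monotone) {x y : Fin n → Bool}
    (hxy : ∀ j, x j ≤ y j) (hx : P.Accepts x) : P.Accepts y := by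
  refine Relation.ReflTransGen.mono ?_ _ _ hx
  rintro u v ⟨e, he1, he2, he3⟩
  exact ⟨e, he1, he2, hP e x y hxy he3⟩

theorem log_half {A B L : ℕ} (hB : 0 < B) (hBL : Nat.log 2 B ≤ L) (hAL : Nat.log 2 A ≤ L)
    (h : L - Nat.log 2 B ≤ L - Nat.log 2 A) : A ≤ 2 * B := by
  have h1 : Nat.log 2 A ≤ Nat.log 2 B := by omega
  have h2 : A < 2 ^ (Nat.log 2 A + 1) := Nat.lt_pow_succ_log_self (by norm_num) A
  have h3 : 2 ^ Nat.log 2 B ≤ B := Nat.pow_log_le_self 2 hB.ne'
  have h4 : 2 ^ (Nat.log 2 A + 1) ≤ 2 * 2 ^ Nat.log 2 B := by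
    rw [pow_succ, mul_comm]
    exact Nat.mul_le_mul_left _ (Nat.pow_le_pow_right (by norm_num) h1)
  omega

theorem card_col (a C : ℕ) : Fintype.card (Nd (2 * (32 * a)) × Lb (64 * a * C) → Bool) <
    2 ^ (2 ^ (64 * a + 1) * 2 ^ (64 * a * C) + 1) := by
  have h64 : 2 * (32 * a) = 64 * a := by ring
  have h1 : Fintype.card (Nd (2 * (32 * a)) × Lb (64 * a * C) → Bool) =
      2 ^ (2 ^ (64 * a + 1) * 2 ^ (64 * a * C)) := by
    rw [Fintype.card_fun, Fintype.card_prod, Fintype.card_bool, ← h64]
    simp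
  rw [h1]
  exact Nat.pow_lt_pow_right (by norm_num) (Nat.lt_succ_self _)

theorem card_lab (a C : ℕ) : Fintype.card (Nd (2 * (32 * a)) → Lb (64 * a * C)) <
    2 ^ (2 ^ (64 * a + 1) * 2 ^ (64 * a * C) + 1) := by
  have h64 : 2 * (32 * a) = 64 * a := by ring
  have h1 : Fintype.card (Nd (2 * (32 * a)) → Lb (64 * a * C)) =
      2 ^ (64 * a * C * 2 ^ (64 * a + 1)) := by
    rw [Fintype.card_fun, ← h64]
    simp
    rw [← pow_mul]
  rw [h1]
  refine Nat.pow_lt_pow_right (by norm_num) (Nat.lt_succ_of_le ?_)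
  rw [mul_comm]
  exact Nat.mul_le_mul_left _ Nat.lt_two_pow_self.le

/-- An intersection of many programs. -/
theorem inter_core {a C : ℕ} (ha : 2 ≤ a) (hC : 2 ≤ C)
    (hn : (tmpl (2 * (32 * a)) (64 * a * C) M i).length = n / 5) {U : Type} [Fintype U]
    (D : U → Program Bool n) {r s : ℕ}
    (hD : ∀ u, (D u).Monotone ∧ ReadsN (D u) r ∧ (D u).size ≤ s)
    (hrec : ∀ x : Fin n → Bool, (∀ u, (D u).Accepts x) ↔ List.ofFn x ∈ LB)
    (hr : r ≤ 2 ^ (192 * a * C - a))
    (hs : 16 * ((2 ^ (64 * a + 1) * 2 ^ (64 * a * C) + 1) * (s + 2)) < 2 ^ (a * a)) :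
    M ≤ Nat.log 2 (Fintype.card U) := by
  classical
  set T := tmpl (2 * (32 * a)) (64 * a * C) M i with hT
  set Rj : (Fin n → Bool) → Finset U := fun x => univ.filter fun u => ¬ (D u).Accepts x with hRj
  have hRle : ∀ x, Nat.log 2 (Rj x).card ≤ Nat.log 2 (Fintype.card U) := fun x =>
    Nat.log_mono_right (card_le_univ _)
  obtain ⟨w, -, hw⟩ := hybrid (M := M) (binG (M := M) T n hn) ∅
    (fun z => ∃ χ : Nd (2 * (32 * a)) × Lb (64 * a * C) → Bool, z = negT χ)
    (fun x => Nat.log 2 (Fintype.card U) - Nat.log 2 (Rj x).card) (by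
      intro w β hw hβ
      by_contra hcon
      push Not at hcon
      set g : Set (Var (2 * (32 * a)) (Lb (64 * a * C))) → Fin n → Bool := fun y =>
        binG T n hn (Function.update w β y) with hg
      have hg1 : ∀ y y', y ⊆ y' → ∀ j, g y j ≤ g y' j := by
        intro y y' hyy j
        refine binG_mono T n hn (fun γ => ?_) j
        by_cases hγ : γ = β
        · subst hγ
          rw [Function.update_self, Function.update_self]
          exact hyy
        · rw [Function.update_of_ne hγ, Function.update_of_ne hγ]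
      have hg0 : ∀ y j, binG T n hn w j ≤ g y j := by
        intro y j
        refine binG_mono T n hn (fun γ => ?_) j
        by_cases hγ : γ = β
        · subst hγ
          rw [Function.update_self, hβ]
          exact Set.empty_subset _
        · rw [Function.update_of_ne hγ]
      have hgneg : ∀ χ, List.ofFn (g (negT χ)) ∉ LB := by
        intro χ
        rw [hg, binG_mem]
        refine tmpl_neg (by omega) _ _ _ fun γ hγM => ?_
        by_cases hγ : (⟨γ, hγM⟩ : Fin M) = β
        · refine ⟨χ, ?_⟩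
          rintro q ⟨hp, h1⟩
          rw [hγ, Function.update_self] at h1
          exact h1
        · rcases hw ⟨γ, hγM⟩ with ⟨χ', hχ'⟩ | h0
          · refine ⟨χ', ?_⟩
            rintro q ⟨hp, h1⟩
            rw [Function.update_of_ne hγ, hχ'] at h1
            exact h1
          · refine ⟨fun _ => true, ?_⟩
            rintro q ⟨hp, h1⟩
            rw [Function.update_of_ne hγ, h0] at h1
            exact absurd h1 (Set.notMem_empty _)
      have hgpos : ∀ l, List.ofFn (g (posT l)) ∈ LB := by
        intro l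
        rw [hg, binG_mem]
        refine tmpl_pos _ _ _ ⟨β.1, β.2, l, fun q hq => ⟨β.2, ?_⟩⟩
        rw [Function.update_self]
        exact hq
      obtain ⟨S, hS1, -, hS3⟩ := hit (Rj (binG T n hn w)) (fun χ => Rj (g (negT χ)))
        (2 ^ (64 * a + 1) * 2 ^ (64 * a * C) + 1)
        (univ : Finset (Nd (2 * (32 * a)) × Lb (64 * a * C) → Bool))
        (by rw [card_univ]; exact card_col a C) (by
          intro χ _
          have h1 : 0 < (Rj (g (negT χ))).card := by
            have h2 := hgneg χ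
            rw [← hrec] at h2
            push Not at h2
            obtain ⟨u, hu⟩ := h2
            exact card_pos.2 ⟨u, mem_filter.2 ⟨mem_univ _, hu⟩⟩
          refine ⟨?_, h1, ?_⟩
          · intro u hu
            rw [hRj, mem_filter] at hu ⊢
            exact ⟨mem_univ _, fun h3 => hu.2 (acc_mono (hD u).1 (hg0 _) h3)⟩
          · exact log_half h1 (hRle _) (hRle _) (hcon _ ⟨χ, rfl⟩))
      have hlen : (S.toList.map D).length ≤ 2 ^ (64 * a + 1) * 2 ^ (64 * a * C) + 1 := by
        rw [List.length_map, length_toList]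
        exact hS1
      have hall : ∀ P ∈ S.toList.map D, P.Monotone ∧ ReadsN P r ∧ P.size ≤ s := by
        intro P hP
        rw [List.mem_map] at hP
        obtain ⟨u, _, rfl⟩ := hP
        exact hD u
      refine one_prog ha hC (capL (S.toList.map D)) (r := r)
        (s := (2 ^ (64 * a + 1) * 2 ^ (64 * a * C) + 1) * (s + 2))
        (capL_monotone _ fun P hP => (hall P hP).1) (capL_reads _ fun P hP => (hall P hP).2.1)
        ?_ hr hs g hg1 (binG_dep T n hn w β) ?_ ?_
      · refine (capL_size _ fun P hP => (hall P hP).2.2).trans ?_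
        exact Nat.mul_le_mul hlen (by omega)
      · intro l
        rw [capL_accepts]
        intro P hP
        rw [List.mem_map] at hP
        obtain ⟨u, _, rfl⟩ := hP
        exact (hrec _).2 (hgpos l) u
      · intro χ hacc
        rw [capL_accepts] at hacc
        obtain ⟨u, hu1, hu2⟩ := hS3 χ (mem_univ _)
        exact (mem_filter.1 hu2).2 (hacc _ (List.mem_map.2 ⟨u, mem_toList.2 hu1, rfl⟩)))
  exact hw.trans (Nat.sub_le _ _)

/-- A union of many programs. -/
theorem union_core {a C : ℕ} (ha : 2 ≤ a) (hC : 2 ≤ C)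
    (hn : (tmpl (2 * (32 * a)) (64 * a * C) M i).length = n / 5) {U : Type} [Fintype U]
    (D : U → Program Bool n) {r s : ℕ}
    (hD : ∀ u, (D u).Monotone ∧ ReadsN (D u) r ∧ (D u).size ≤ s)
    (hrec : ∀ x : Fin n → Bool, (∃ u, (D u).Accepts x) ↔ List.ofFn x ∈ LB)
    (hr : r ≤ 2 ^ (192 * a * C - a))
    (hs : 16 * ((2 ^ (64 * a + 1) * 2 ^ (64 * a * C) + 1) * (s + 2)) < 2 ^ (a * a)) :
    M ≤ Nat.log 2 (Fintype.card U) := by
  classical
  rw [← tmplA_length] at hn
  set T := tmplA (2 * (32 * a)) (64 * a * C) M i with hT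
  set Ac : (Fin n → Bool) → Finset U := fun x => univ.filter fun u => (D u).Accepts x with hAc
  have hRle : ∀ x, Nat.log 2 (Ac x).card ≤ Nat.log 2 (Fintype.card U) := fun x =>
    Nat.log_mono_right (card_le_univ _)
  obtain ⟨w, -, hw⟩ := hybrid (M := M) (binG (M := M) T n hn) Set.univ
    (fun z => ∃ l : Nd (2 * (32 * a)) → Lb (64 * a * C), z = posT l)
    (fun x => Nat.log 2 (Fintype.card U) - Nat.log 2 (Ac x).card) (by
      intro w β hw hβ
      by_contra hcon
      push Not at hcon
      set g : Set (Var (2 * (32 * a)) (Lb (64 * a * C))) → Fin n → Bool := fun y =>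
        binG T n hn (Function.update w β y) with hg
      have hg1 : ∀ y y', y ⊆ y' → ∀ j, g y j ≤ g y' j := by
        intro y y' hyy j
        refine binG_mono T n hn (fun γ => ?_) j
        by_cases hγ : γ = β
        · subst hγ
          rw [Function.update_self, Function.update_self]
          exact hyy
        · rw [Function.update_of_ne hγ, Function.update_of_ne hγ]
      have hg0 : ∀ y j, g y j ≤ binG T n hn w j := by
        intro y j
        refine binG_mono T n hn (fun γ => ?_) j
        by_cases hγ : γ = β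
        · subst hγ
          rw [Function.update_self, hβ]
          exact Set.subset_univ _
        · rw [Function.update_of_ne hγ]
      have hgpos : ∀ l, List.ofFn (g (posT l)) ∈ LB := by
        intro l
        rw [hg, binG_mem]
        refine tmplA_pos _ _ _ fun γ hγM => ?_
        by_cases hγ : (⟨γ, hγM⟩ : Fin M) = β
        · refine ⟨l, fun q hq => ⟨hγM, ?_⟩⟩
          rw [hγ, Function.update_self]
          exact hq
        · rcases hw ⟨γ, hγM⟩ with ⟨l', hl'⟩ | h0
          · refine ⟨l', fun q hq => ⟨hγM, ?_⟩⟩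
            rw [Function.update_of_ne hγ, hl']
            exact hq
          · refine ⟨l, fun q hq => ⟨hγM, ?_⟩⟩
            rw [Function.update_of_ne hγ, h0]
            exact Set.mem_univ _
      have hgneg : ∀ χ, List.ofFn (g (negT χ)) ∉ LB := by
        intro χ
        rw [hg, binG_mem]
        refine tmplA_neg (by omega) _ _ _ ⟨β.1, β.2, χ, ?_⟩
        rintro q ⟨hp, h1⟩
        rw [Function.update_self] at h1
        exact h1
      obtain ⟨S, hS1, -, hS3⟩ := hit (Ac (binG T n hn w)) (fun l => Ac (g (posT l)))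
        (2 ^ (64 * a + 1) * 2 ^ (64 * a * C) + 1)
        (univ : Finset (Nd (2 * (32 * a)) → Lb (64 * a * C)))
        (by rw [card_univ]; exact card_lab a C) (by
          intro l _
          have h1 : 0 < (Ac (g (posT l))).card := by
            obtain ⟨u, hu⟩ := (hrec _).2 (hgpos l)
            exact card_pos.2 ⟨u, mem_filter.2 ⟨mem_univ _, hu⟩⟩
          refine ⟨?_, h1, ?_⟩
          · intro u hu
            rw [hAc, mem_filter] at hu ⊢
            exact ⟨mem_univ _, acc_mono (hD u).1 (hg0 _) hu.2⟩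
          · exact log_half h1 (hRle _) (hRle _) (hcon _ ⟨l, rfl⟩))
      have hcard : Fintype.card {u // u ∈ S} ≤ 2 ^ (64 * a + 1) * 2 ^ (64 * a * C) + 1 := by
        rw [Fintype.card_coe]
        exact hS1
      refine one_prog ha hC (cup fun u : {u // u ∈ S} => D u.1) (r := r)
        (s := (2 ^ (64 * a + 1) * 2 ^ (64 * a * C) + 1) * (s + 2))
        (cup_monotone (fun u : {u // u ∈ S} => D u.1) fun u => (hD u.1).1)
        (cup_reads (fun u : {u // u ∈ S} => D u.1) fun u => (hD u.1).2.1)
        ?_ hr hs g hg1 (binG_dep T n hn w β) ?_ ?_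
      · refine (cup_size (fun u : {u // u ∈ S} => D u.1) fun u => (hD u.1).2.2).trans ?_
        exact Nat.mul_le_mul_right _ hcard
      · intro l
        rw [cup_accepts]
        obtain ⟨u, hu1, hu2⟩ := hS3 l (mem_univ _)
        exact ⟨⟨u, hu1⟩, (mem_filter.1 hu2).2⟩
      · intro χ hacc
        rw [cup_accepts] at hacc
        obtain ⟨u, hu⟩ := hacc
        exact hgneg χ ((hrec _).1 ⟨u.1, hu⟩))
  exact hw.trans (Nat.sub_le _ _)

theorem num_le (a C M i : ℕ) (hM : 1 ≤ M) :
    2 ^ (64 * a + 1) * 2 ^ (64 * a * C) + 1 ≤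
      (tmpl (2 * (32 * a)) (64 * a * C) M i).length := by
  have hT : ∀ (m i : ℕ), 2 ^ i * (2 ^ m * (m + 2) + 11) ≤ lenT m i := by
    intro m i
    induction i with
    | zero => simp [lenT]
    | succ i ih =>
      rw [lenT, pow_succ]
      have e : 2 ^ i * 2 * (2 ^ m * (m + 2) + 11) = 2 * (2 ^ i * (2 ^ m * (m + 2) + 11)) := by ring
      omega
  rw [tmpl_length]
  have h1 := hT (64 * a * C) (2 * (32 * a))
  have h64 : 2 * (32 * a) = 64 * a := by ring
  rw [h64] at h1 ⊢
  have h2 : 2 ^ (64 * a + 1) * 2 ^ (64 * a * C) ≤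
      2 ^ (64 * a) * (2 ^ (64 * a * C) * (64 * a * C + 2) + 11) := by
    rw [pow_succ, mul_assoc]
    refine Nat.mul_le_mul_left _ ?_
    calc 2 * 2 ^ (64 * a * C) = 2 ^ (64 * a * C) * 2 := by ring
      _ ≤ 2 ^ (64 * a * C) * (64 * a * C + 2) := Nat.mul_le_mul_left _ (by omega)
      _ ≤ _ := Nat.le_add_right _ _
  have h3 : len1 (64 * a) (64 * a * C) ≤ M * len1 (64 * a) (64 * a * C) :=
    Nat.le_mul_of_pos_left _ hM
  have h4 : lenT (64 * a * C) (64 * a) ≤ len1 (64 * a) (64 * a * C) := by
    rw [len1]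
    exact Nat.le_add_left _ _
  omega

end Pool.Agent.T9h97.CFL
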